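import Mathlib
import Pool.Agent.H28.A4.Loc
import Pool.Agent.H28.A4.Fin

set_option autoImplicit false

/-!
# W1#, chapter LOC (exact number of classes at the finite places): definitions

MP_b39724 (T3), interface `H88/WS/Iface.lean`: `Loc2Stmt`, `Loc0Stmt`. `O` a Dedekind domain, `l` a
prime, `od l x` the exponent of `l` in `x` (`FP.od`; tools: `FP.mem_iff`, `FP.mem_od`, `FP.cancel`,
`FP.mul_mem_pow`, `FP.pow_antitone`, `H28.A4.od_mul`, `cancel_od`, `mul_mem_le`, `od_lt_of_nmem`).
`LAdm l M u v`: what `Adm` says at the prime `l`; `LS l M β π`: the row `π` completes the block `β` to a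
pair that is admissible at `l`.
-/

open scoped NumberField

namespace H1.LC

open H88.A4 IsDedekindDomain
open Pool.Agent.H28.FP (od mem_iff mem_od)
open Pool.Agent.H28.A4 (od_sq)

variable {O : Type} [CommRing O] [IsDedekindDomain O]

/-- admissible at the prime `l` -/
structure LAdm (l : HeightOneSpectrum O) (M u v : O) : Prop where
  u0 : u ≠ 0
  v0 : v ≠ 0
  ou : od l u ≤ 2 * od l M + 1
  ov : od l v ≤ 2 * od l M + 1
  cop : M ∉ l.asIdeal → (u ∉ l.asIdeal ∨ v ∉ l.asIdeal)

/-- the row `π` completes the block `β` to a pair that is admissible at `l` -/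
def LS (l : HeightOneSpectrum O) (M : O) (β : Blk O) (π : Row O) : Prop :=
  ∃ r r' u v : O, LAdm l M u v ∧ Sol β π r r' u v

theorem ladm_of {K : Type} [Field K] [NumberField K] {M : ℕ} (hM : M ≠ 0) {C s t : ℝ} {u v : 𝓞 K}
    (ha : Adm M C s t u v) (l : HeightOneSpectrum (𝓞 K)) : LAdm l (M : 𝓞 K) u v := by
  have hMO : (M : 𝓞 K) ≠ 0 := by exact_mod_cast hM
  refine ⟨ha.u0, ha.v0, od_sq l ha.u0 hMO ha.squ, od_sq l ha.v0 hMO ha.sqv, ?_⟩
  intro hMl
  by_contra hcon
  push Not at hcon
  apply hMl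
  refine (Ideal.span_le.2 ?_) ha.cop
  intro z hz
  rcases hz with rfl | rfl
  · exact hcon.1
  · exact hcon.2

theorem od_zero (l : HeightOneSpectrum O) {x : O} (h : x ∉ l.asIdeal) : od l x = 0 := by
  have hx : x ≠ 0 := fun h0 => h (by rw [h0]; exact Ideal.zero_mem _)
  by_contra hne
  apply h
  have := (mem_iff l hx 1).2 (by omega)
  rwa [pow_one] at this

end H1.LC
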