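import Mathlib
import Pool.Agent.H1.LC.Df

set_option autoImplicit false

/-!
# W1#, LOC: Hensel for `x ^ 2 + D`, and division modulo powers of a prime

TOOLS of Mathlib: `Ideal.exists_mul_add_mem_pow_succ` (`a ∈ P ^ i \ P ^ (i+1)`, `c ∈ P ^ i`: there are
`d` and `e ∈ P ^ (i+1)` with `a d + e = c`), `Ideal.exists_mem_pow_notMem_pow_succ` (an element of exact
order `i`); `l.isPrime`, `l.ne_bot`. Order of products: `H28.A4.od_mul`, `mem_iff`.

PROOF of `divi` (`Y ≠ 0`, `W ∈ l ^ (od l Y)`; then for every `T` there is `x` with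
`W - x Y ∈ l ^ (od l Y + T)`): induction on `T`. `T = 0`: `x = 0`. Step: `w` of exact order `T`; `a = w Y` has
exact order `od l Y + T`; `a d + e = W - x Y` with `e ∈ l ^ (od l Y + T + 1)`; take `x + w d`.

PROOF of `hensel`. Put `T = od l D + 2 od l 2 + 1`. By induction on `j`: there is `δ` with
`δ ^ 2 + D ∈ l ^ (T + j)`. `j = 0`: `x`. Step: let `δ ^ 2 + D ∈ l ^ (T + j)`. First (also for the last
claim): `δ ^ 2 = (δ ^ 2 + D) - D`, `D ∉ l ^ (od l D + 1)`, `T ≥ od l D + 1`: hence `δ ≠ 0` and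
`2 od l δ = od l D` (`δ ^ 2 ∈ l ^ (od l D)`, `δ ^ 2 ∉ l ^ (od l D + 1)`, `od_mul`). Put
`h = od l 2 + od l δ = od l (2 δ)`, so `T = 2 h + 1`; `k = T + j`. Take `w` of exact order `k - h`. `a = 2 δ w`
has exact order `k`. `a d + e = δ ^ 2 + D`, `e ∈ l ^ (k + 1)`. Then
`(δ - w d) ^ 2 + D = e + w ^ 2 d ^ 2` and `w ^ 2 ∈ l ^ (2 (k - h))`, `2 (k - h) ≥ k + 1` because `k ≥ 2 h + 1`.
-/

namespace H1.LC

open IsDedekindDomain
open Pool.Agent.H28.FP (od mem_iff mem_od)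

variable {O : Type} [CommRing O] [IsDedekindDomain O]

/-- an element of exact order `n` -/
private theorem ex_order (l : HeightOneSpectrum O) (n : ℕ) :
    ∃ w : O, w ≠ 0 ∧ od l w = n := by
  obtain ⟨w, hw, hw'⟩ := Ideal.exists_mem_pow_notMem_pow_succ l.asIdeal l.ne_bot
    l.isPrime.ne_top n
  have h0 : w ≠ 0 := fun h => hw' (by rw [h]; exact Ideal.zero_mem _)
  refine ⟨w, h0, ?_⟩
  rw [mem_iff l h0] at hw hw'
  omega

/-- one step of the division -/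
private theorem step (l : HeightOneSpectrum O) {a c : O} (ha : a ≠ 0)
    (hc : c ∈ l.asIdeal ^ od l a) : ∃ d : O, c - a * d ∈ l.asIdeal ^ (od l a + 1) := by
  haveI := l.isPrime
  obtain ⟨d, e, he, h⟩ := Ideal.exists_mul_add_mem_pow_succ l.ne_bot a c (mem_od l a ha)
    (by rw [mem_iff l ha]; omega) hc
  refine ⟨d, ?_⟩
  have : c - a * d = e := by rw [← h]; ring
  rw [this]
  exact he

/-- division modulo powers of `l` -/
theorem divi (l : HeightOneSpectrum O) {W Y : O} (hY : Y ≠ 0) (hW : W ∈ l.asIdeal ^ od l Y) (T : ℕ) :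
    ∃ x : O, W - x * Y ∈ l.asIdeal ^ (od l Y + T) := by
  induction T with
  | zero => exact ⟨0, by simpa using hW⟩
  | succ T ih =>
    obtain ⟨x, hx⟩ := ih
    obtain ⟨w, hw0, hw⟩ := ex_order l T
    have ho : od l (w * Y) = od l Y + T := by
      rw [Pool.Agent.H28.A4.od_mul l hw0 hY, hw, add_comm]
    obtain ⟨d, hd⟩ := step l (mul_ne_zero hw0 hY) (c := W - x * Y) (by rw [ho]; exact hx)
    refine ⟨x + w * d, ?_⟩
    have e1 : W - (x + w * d) * Y = W - x * Y - w * Y * d := by ring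
    rw [e1, ← add_assoc, ← ho]
    exact hd

/-- the order of a root of `x ^ 2 + D` modulo a high power -/
private theorem ord_root (l : HeightOneSpectrum O) {D δ : O} (hD : D ≠ 0)
    (h : δ ^ 2 + D ∈ l.asIdeal ^ (od l D + 1)) : δ ≠ 0 ∧ 2 * od l δ = od l D := by
  have hDn : D ∉ l.asIdeal ^ (od l D + 1) := by rw [mem_iff l hD]; omega
  have hδ0 : δ ≠ 0 := by
    rintro rfl
    apply hDn
    simpa using h
  refine ⟨hδ0, ?_⟩
  have h1 : δ ^ 2 ∈ l.asIdeal ^ od l D := by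
    have e : δ ^ 2 = (δ ^ 2 + D) - D := by ring
    rw [e]
    exact Ideal.sub_mem _ (Pool.Agent.H28.FP.pow_antitone l (Nat.le_succ _) h) (mem_od l D hD)
  have h2 : δ ^ 2 ∉ l.asIdeal ^ (od l D + 1) := by
    intro h3
    apply hDn
    have h4 := Ideal.sub_mem _ h h3
    rwa [add_sub_cancel_left] at h4
  have hsq : δ ^ 2 ≠ 0 := pow_ne_zero 2 hδ0
  have ho : od l (δ ^ 2) = 2 * od l δ := by
    rw [sq, Pool.Agent.H28.A4.od_mul l hδ0 hδ0]; ring
  rw [mem_iff l hsq, ho] at h1 h2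
  omega

theorem hensel (l : HeightOneSpectrum O) {D x : O} (h2 : (2 : O) ≠ 0) (hD : D ≠ 0)
    (hx : x ^ 2 + D ∈ l.asIdeal ^ (od l D + 2 * od l (2 : O) + 1)) (k : ℕ) :
    ∃ δ : O, δ ^ 2 + D ∈ l.asIdeal ^ k ∧ δ ≠ 0 ∧ 2 * od l δ = od l D := by
  have key : ∀ j : ℕ, ∃ δ : O, δ ^ 2 + D ∈ l.asIdeal ^ (od l D + 2 * od l (2 : O) + 1 + j) := by
    intro j
    induction j with
    | zero => exact ⟨x, by simpa using hx⟩
    | succ j ih =>
      obtain ⟨δ, hδ⟩ := ih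
      obtain ⟨hδ0, hδo⟩ := ord_root l hD
        (Pool.Agent.H28.FP.pow_antitone l (show od l D + 1 ≤ od l D + 2 * od l (2 : O) + 1 + j by omega) hδ)
      obtain ⟨w, hw0, hw⟩ := ex_order l (od l D + 2 * od l (2 : O) + 1 + j - (od l (2 : O) + od l δ))
      have ho : od l (2 * δ * w) = od l D + 2 * od l (2 : O) + 1 + j := by
        rw [Pool.Agent.H28.A4.od_mul l (mul_ne_zero h2 hδ0) hw0, Pool.Agent.H28.A4.od_mul l h2 hδ0, hw]
        omega
      obtain ⟨d, hd⟩ := step l (mul_ne_zero (mul_ne_zero h2 hδ0) hw0) (c := δ ^ 2 + D)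
        (by rw [ho]; exact hδ)
      rw [ho] at hd
      refine ⟨δ - w * d, ?_⟩
      have e1 : (δ - w * d) ^ 2 + D = (δ ^ 2 + D - 2 * δ * w * d) + w ^ 2 * d ^ 2 := by ring
      rw [e1]
      refine Ideal.add_mem _ hd (Ideal.mul_mem_right _ _ ?_)
      rw [mem_iff l (pow_ne_zero 2 hw0), sq, Pool.Agent.H28.A4.od_mul l hw0 hw0, hw]
      omega
  obtain ⟨δ, hδ⟩ := key k
  obtain ⟨hδ0, hδo⟩ := ord_root l hD
    (Pool.Agent.H28.FP.pow_antitone l (show od l D + 1 ≤ od l D + 2 * od l (2 : O) + 1 + k by omega) hδ)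
  exact ⟨δ, Pool.Agent.H28.FP.pow_antitone l (by omega) hδ, hδ0, hδo⟩

end H1.LC
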