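import Mathlib
import Pool.Agent.H1.LC.Hen

set_option autoImplicit false

/-!
# W1#, LOC: pairs `(W, Y)` with `W ^ 2 + D Y ^ 2 ∈ l ^ k`

PROOF of `prs_sq` (classes by the order of `W + δ Y`). `δ` from `hensel` for `k`: `δ ^ 2 + D ∈ l ^ k`,
`δ ≠ 0`, `2 od l δ = od l D`. `cl W Y = k` if `W + δ Y ∈ l ^ k`, otherwise `od l (W + δ Y)` (which is `< k`,
`Pool.Agent.H28.A4.od_lt_of_nmem`). For a pair with `W ^ 2 + D Y ^ 2 ∈ l ^ k`:
(a) `W + δ Y ∈ l ^ cl`; (b) `W - δ Y ∈ l ^ (k - cl)`: trivial if `cl = k`; otherwise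
`(W + δ Y) (W - δ Y) = (W ^ 2 + D Y ^ 2) - (δ ^ 2 + D) Y ^ 2 ∈ l ^ k` and `Pool.Agent.H28.A4.cancel_od`. For two pairs of
the same class: `(W + δ Y) (W' - δ Y')` and `(W - δ Y) (W' + δ Y')` are in `l ^ k` (`mul_mem_le`), their
difference is `-2 δ (W Y' - Y W')`, so `2 δ (W Y' - Y W') ∈ l ^ k`, and `cancel_od`, with
`od l (2 δ) = od l 2 + od l δ ≤ od l 2 + od l D`.

PROOF of `prs_one` (`-D` is not a square modulo `l ^ T`, `T = od l D + 2 od l 2 + 1`; then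
`W ^ 2 + D Y ^ 2 ∈ l ^ k` gives `n` with `W, Y ∈ l ^ n` and `k ≤ 2 n + (T - 1)`). If `W, Y ∈ l ^ k`: `n = k`.
Otherwise let `n` be maximal (`Nat.find` of the first `n` with not both in `l ^ (n + 1)`) with
`W, Y ∈ l ^ n`. (1) `Y ∉ l ^ (n + 1)`: `Y ≠ 0`, `od l Y = n`. If `k ≥ 2 n + T`: by `divi` there is `x` with
`W - x Y ∈ l ^ (n + T)`; `(x ^ 2 + D) Y ^ 2 = (W ^ 2 + D Y ^ 2) - (W - x Y) (W + x Y) ∈ l ^ (2 n + T)`
(`W + x Y ∈ l ^ n`), `cancel_od`: `x ^ 2 + D ∈ l ^ T`, contradiction. (2) `Y ∈ l ^ (n + 1)`,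
`W ∉ l ^ (n + 1)`: `W ^ 2 = (W ^ 2 + D Y ^ 2) - D Y ^ 2`; if `k ≥ 2 n + 1` then `W ^ 2 ∈ l ^ (2 n + 1)`, but
`od l (W ^ 2) = 2 n`. So `k ≤ 2 n`.

PROOF of `prs_ns`: `n`, `n'` from `prs_one`; `W Y' - Y W' ∈ l ^ (n + n')` and `2 (n + n') ≥ 2 k - 2 (T - 1)`.
-/

namespace H1.LC

open IsDedekindDomain
open Pool.Agent.H28.FP (od mem_iff mem_od)

variable {O : Type} [CommRing O] [IsDedekindDomain O]

/-- `-D` is a square modulo a high power of `l`: `k + 1` classes -/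
theorem prs_sq (l : HeightOneSpectrum O) {D : O} (h2 : (2 : O) ≠ 0) (hD : D ≠ 0)
    (hx : ∃ x : O, x ^ 2 + D ∈ l.asIdeal ^ (od l D + 2 * od l (2 : O) + 1)) (k : ℕ) :
    ∃ cl : O → O → ℕ, (∀ W Y, cl W Y < k + 1) ∧ ∀ W Y W' Y' : O,
      W ^ 2 + D * Y ^ 2 ∈ l.asIdeal ^ k → W' ^ 2 + D * Y' ^ 2 ∈ l.asIdeal ^ k →
      cl W Y = cl W' Y' → W * Y' - Y * W' ∈ l.asIdeal ^ (k - (od l (2 : O) + od l D)) := by
  classical
  obtain ⟨x, hx⟩ := hx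
  obtain ⟨δ, hδ, hδ0, hδD⟩ := hensel l h2 hD hx k
  refine ⟨fun W Y => if W + δ * Y ∈ l.asIdeal ^ k then k else od l (W + δ * Y), ?_, ?_⟩
  · intro W Y
    show (if W + δ * Y ∈ l.asIdeal ^ k then k else od l (W + δ * Y)) < k + 1
    split_ifs with h
    · omega
    · have := (Pool.Agent.H28.A4.od_lt_of_nmem l h).2
      omega
  · have key : ∀ W Y : O, W ^ 2 + D * Y ^ 2 ∈ l.asIdeal ^ k →
        W + δ * Y ∈ l.asIdeal ^ (if W + δ * Y ∈ l.asIdeal ^ k then k else od l (W + δ * Y)) ∧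
        W - δ * Y ∈ l.asIdeal ^ (k - (if W + δ * Y ∈ l.asIdeal ^ k then k else od l (W + δ * Y))) := by
      intro W Y hWY
      split_ifs with h
      · refine ⟨h, ?_⟩
        rw [Nat.sub_self, pow_zero, Ideal.one_eq_top]
        exact Submodule.mem_top
      · have h0 := (Pool.Agent.H28.A4.od_lt_of_nmem l h).1
        refine ⟨mem_od l _ h0, ?_⟩
        apply Pool.Agent.H28.A4.cancel_od l h0
        have e : (W + δ * Y) * (W - δ * Y) = (W ^ 2 + D * Y ^ 2) - (δ ^ 2 + D) * Y ^ 2 := by ring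
        rw [e]
        exact (l.asIdeal ^ k).sub_mem hWY ((l.asIdeal ^ k).mul_mem_right _ hδ)
    intro W Y W' Y' hW hW' hcl
    obtain ⟨a1, a2⟩ := key W Y hW
    obtain ⟨b1, b2⟩ := key W' Y' hW'
    simp only at hcl
    rw [← hcl] at b1 b2
    have c1 := Pool.Agent.H28.A4.mul_mem_le l (c := k) a1 b2 (by omega)
    have c2 := Pool.Agent.H28.A4.mul_mem_le l (c := k) a2 b1 (by omega)
    have e : (2 * δ) * (W * Y' - Y * W') = (W - δ * Y) * (W' + δ * Y') - (W + δ * Y) * (W' - δ * Y') := by ring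
    have c3 : (2 * δ) * (W * Y' - Y * W') ∈ l.asIdeal ^ k := by
      rw [e]
      exact (l.asIdeal ^ k).sub_mem c2 c1
    have c4 := Pool.Agent.H28.A4.cancel_od l (mul_ne_zero h2 hδ0) c3
    rw [Pool.Agent.H28.A4.od_mul l h2 hδ0] at c4
    exact Pool.Agent.H28.FP.pow_antitone l (by omega) c4

theorem prs_one (l : HeightOneSpectrum O) {D : O} (hD : D ≠ 0)
    (hx : ∀ x : O, x ^ 2 + D ∉ l.asIdeal ^ (od l D + 2 * od l (2 : O) + 1)) (k : ℕ) {W Y : O}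
    (h : W ^ 2 + D * Y ^ 2 ∈ l.asIdeal ^ k) :
    ∃ n : ℕ, W ∈ l.asIdeal ^ n ∧ Y ∈ l.asIdeal ^ n ∧ k ≤ 2 * n + (od l D + 2 * od l (2 : O)) := by
  classical
  by_cases hk : W ∈ l.asIdeal ^ k ∧ Y ∈ l.asIdeal ^ k
  · exact ⟨k, hk.1, hk.2, by omega⟩
  have hk1 : 1 ≤ k := by
    by_contra h0
    have h1 : k = 0 := by omega
    apply hk
    rw [h1, pow_zero, Ideal.one_eq_top]
    exact ⟨Submodule.mem_top, Submodule.mem_top⟩
  have hex : ∃ n, ¬ (W ∈ l.asIdeal ^ (n + 1) ∧ Y ∈ l.asIdeal ^ (n + 1)) := by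
    refine ⟨k - 1, ?_⟩
    rw [Nat.sub_add_cancel hk1]
    exact hk
  obtain ⟨n, hn1, hn2⟩ : ∃ n, (W ∈ l.asIdeal ^ n ∧ Y ∈ l.asIdeal ^ n) ∧
      ¬ (W ∈ l.asIdeal ^ (n + 1) ∧ Y ∈ l.asIdeal ^ (n + 1)) := by
    refine ⟨Nat.find hex, ?_, Nat.find_spec hex⟩
    rcases Nat.eq_zero_or_pos (Nat.find hex) with h0 | h0
    · rw [h0, pow_zero, Ideal.one_eq_top]
      exact ⟨Submodule.mem_top, Submodule.mem_top⟩
    · have h1 := Nat.find_min hex (m := Nat.find hex - 1) (by omega)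
      rw [not_not, Nat.sub_add_cancel h0] at h1
      exact h1
  obtain ⟨hWn, hYn⟩ := hn1
  refine ⟨n, hWn, hYn, ?_⟩
  by_cases hY : Y ∈ l.asIdeal ^ (n + 1)
  · have hW : W ∉ l.asIdeal ^ (n + 1) := fun hW => hn2 ⟨hW, hY⟩
    obtain ⟨hW0, hWod⟩ := Pool.Agent.H28.A4.od_lt_of_nmem l hW
    by_contra hcon
    have h1 : D * Y ^ 2 ∈ l.asIdeal ^ (2 * n + 1) := by
      apply Ideal.mul_mem_left
      have h3 := Pool.Agent.H28.A4.mul_mem_le l (c := 2 * n + 1) hY hY (by omega)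
      rwa [← pow_two] at h3
    have h3 : W ^ 2 ∈ l.asIdeal ^ (2 * n + 1) := by
      have e : W ^ 2 = (W ^ 2 + D * Y ^ 2) - D * Y ^ 2 := by ring
      rw [e]
      exact (l.asIdeal ^ _).sub_mem (Pool.Agent.H28.FP.pow_antitone l (by omega) h) h1
    rw [mem_iff l (pow_ne_zero 2 hW0), pow_two, Pool.Agent.H28.A4.od_mul l hW0 hW0] at h3
    omega
  · obtain ⟨hY0, hYod⟩ := Pool.Agent.H28.A4.od_lt_of_nmem l hY
    have hodY : od l Y = n := by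
      have := (mem_iff l hY0 n).1 hYn
      omega
    by_contra hcon
    obtain ⟨x, hxW⟩ := divi l hY0 (by rw [hodY]; exact hWn) (od l D + 2 * od l (2 : O) + 1)
    rw [hodY] at hxW
    apply hx x
    have h1 : W + x * Y ∈ l.asIdeal ^ n := (l.asIdeal ^ n).add_mem hWn ((l.asIdeal ^ n).mul_mem_left _ hYn)
    have h3 := Pool.Agent.H28.A4.mul_mem_le l (c := 2 * n + (od l D + 2 * od l (2 : O) + 1)) hxW h1 (by omega)
    have h4 : Y ^ 2 * (x ^ 2 + D) ∈ l.asIdeal ^ (2 * n + (od l D + 2 * od l (2 : O) + 1)) := by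
      have e : Y ^ 2 * (x ^ 2 + D) = (W ^ 2 + D * Y ^ 2) - (W - x * Y) * (W + x * Y) := by ring
      rw [e]
      exact (l.asIdeal ^ _).sub_mem (Pool.Agent.H28.FP.pow_antitone l (by omega) h) h3
    have h5 := Pool.Agent.H28.A4.cancel_od l (pow_ne_zero 2 hY0) h4
    rw [pow_two Y, Pool.Agent.H28.A4.od_mul l hY0 hY0, hodY] at h5
    exact Pool.Agent.H28.FP.pow_antitone l (by omega) h5

/-- `-D` is not a square modulo a high power of `l`: one class -/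
theorem prs_ns (l : HeightOneSpectrum O) {D : O} (hD : D ≠ 0)
    (hx : ∀ x : O, x ^ 2 + D ∉ l.asIdeal ^ (od l D + 2 * od l (2 : O) + 1)) (k : ℕ) {W Y W' Y' : O}
    (h : W ^ 2 + D * Y ^ 2 ∈ l.asIdeal ^ k) (h' : W' ^ 2 + D * Y' ^ 2 ∈ l.asIdeal ^ k) :
    W * Y' - Y * W' ∈ l.asIdeal ^ (k - (2 * od l (2 : O) + od l D)) := by
  obtain ⟨n, h1, h2, h3⟩ := prs_one l hD hx k h
  obtain ⟨n', h1', h2', h3'⟩ := prs_one l hD hx k h'
  exact (l.asIdeal ^ _).sub_mem (Pool.Agent.H28.A4.mul_mem_le l h1 h2' (by omega)) (Pool.Agent.H28.A4.mul_mem_le l h2 h1' (by omega))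

end H1.LC
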