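import Mathlib
import Pool.Agent.H1.LC.Prs

set_option autoImplicit false

/-!
# W1#, LOC: from rows to pairs

For `e = (e1, e2)` and `η = η_b(π) = (β.eb1 π, β.eb2 π)` put `W = β.Ab e1 e2 η1 η2`, `Y = e1 η2 - e2 η1`.
* `ab_mul`: `W ^ 2 + D1 Y ^ 2 = Ab(e, e) Ab(η, η)`; for a solution `Ab(η, η) = E u` (`H28.A4.E_mul`), so
  `W ^ 2 + D1 Y ^ 2 ∈ l ^ k` if `E ∈ l ^ k`.
* `ab_sub`: `W Y' - Y W' = Ab(e, e) (η ∧ η')`, and `η ∧ η' = D1 br(π, π')` (`H28.A4.eta_wedge`).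
* `exists_e`: `n = (od l D1 + 2 od l 2) / 2 + 1`. If none of the three `e = (1, 0), (0, 1), (1, -1)` works, then
  `b3 = Ab(1,0)`, `b1 = Ab(0,1)`, `b3 + 2 b2 + b1 = Ab(1,-1)` are in `l ^ n` (each is `0` or has `2 od >`
  `od l D1 + 2 od l 2`), so `2 b2 ∈ l ^ n`, `4 D1 = 4 b1 b3 - (2 b2) ^ 2 ∈ l ^ (2 n)`, but
  `od l (4 D1) = 2 od l 2 + od l D1 < 2 n`.

PROOF of `side`. Choose `e` by `exists_e`. If some `x` has `x ^ 2 + D1 ∈ l ^ (od l D1 + 2 od l 2 + 1)`: `cl`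
of `prs_sq` at `(W, Y)`; otherwise `cl = 0` and `prs_ns`. In both cases
`Ab(e, e) D1 br ∈ l ^ (k - (2 od l 2 + od l D1))`, and `cancel_od` twice (or once with `od_mul`):
`od l (Ab(e, e)) ≤ od l 2 + od l D1`. Sum of the losses `≤ 3 od l D1 + 3 od l 2`.

PROOF of `side_ns`: the same with `prs_ns` at `k`: `od l 2 = od l D1 = 0` (`od_zero`), so
`od l (Ab(e, e)) = 0` and there is no loss.
-/

namespace H1.LC

open H88.A4 IsDedekindDomain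
open Pool.Agent.H28.FP (od mem_iff mem_od)

section ring

variable {R : Type} [CommRing R]

theorem ab_mul (β : Blk R) (e1 e2 x1 x2 : R) :
    β.Ab e1 e2 x1 x2 ^ 2 + β.D1 * (e1 * x2 - e2 * x1) ^ 2 =
      β.Ab e1 e2 e1 e2 * β.Ab x1 x2 x1 x2 := by
  simp only [Blk.Ab, Blk.D1]
  ring

theorem ab_sub (β : Blk R) (e1 e2 x1 x2 y1 y2 : R) :
    β.Ab e1 e2 x1 x2 * (e1 * y2 - e2 * y1) - (e1 * x2 - e2 * x1) * β.Ab e1 e2 y1 y2 =
      β.Ab e1 e2 e1 e2 * (x1 * y2 - x2 * y1) := by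
  simp only [Blk.Ab]
  ring

theorem ab_one (β : Blk R) (e1 e2 x1 x2 : R) :
    β.Ab e1 e2 e1 e2 * x1 = β.Ab e1 e2 x1 x2 * e1 + (e1 * x2 - e2 * x1) * (β.b2 * e1 - β.b1 * e2) := by
  simp only [Blk.Ab]
  ring

theorem ab_two (β : Blk R) (e1 e2 x1 x2 : R) :
    β.Ab e1 e2 e1 e2 * x2 = β.Ab e1 e2 x1 x2 * e2 + (e1 * x2 - e2 * x1) * (β.b3 * e1 - β.b2 * e2) := by
  simp only [Blk.Ab]
  ring

end ring

variable {O : Type} [CommRing O] [IsDedekindDomain O]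

theorem exists_e (l : HeightOneSpectrum O) (β : Blk O) (h2 : (2 : O) ≠ 0) (hD : β.D1 ≠ 0) :
    ∃ e1 e2 : O, β.Ab e1 e2 e1 e2 ≠ 0 ∧
      2 * od l (β.Ab e1 e2 e1 e2) ≤ od l β.D1 + 2 * od l (2 : O) := by
  by_contra hcon
  push Not at hcon
  set T := od l β.D1 + 2 * od l (2 : O) with hT
  set n := T / 2 + 1 with hn
  have hall : ∀ e1 e2 : O, β.Ab e1 e2 e1 e2 ∈ l.asIdeal ^ n := by
    intro e1 e2
    by_cases h0 : β.Ab e1 e2 e1 e2 = 0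
    · rw [h0]
      exact Ideal.zero_mem _
    · rw [mem_iff l h0]
      have := hcon e1 e2 h0
      omega
  have k1 := hall 1 0
  have k2 := hall 0 1
  have k3 := hall 1 (-1)
  have e1 : β.Ab 1 0 1 0 = β.b3 := by
    simp only [Blk.Ab]
    ring
  have e2 : β.Ab 0 1 0 1 = β.b1 := by
    simp only [Blk.Ab]
    ring
  have e3 : β.Ab 1 (-1) 1 (-1) = β.b3 + 2 * β.b2 + β.b1 := by
    simp only [Blk.Ab]
    ring
  rw [e1] at k1
  rw [e2] at k2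
  rw [e3] at k3
  have k4 : 2 * β.b2 ∈ l.asIdeal ^ n := by
    have h5 : 2 * β.b2 = (β.b3 + 2 * β.b2 + β.b1) - β.b3 - β.b1 := by ring
    rw [h5]
    exact Ideal.sub_mem _ (Ideal.sub_mem _ k3 k1) k2
  have k5 : 2 * 2 * β.D1 ∈ l.asIdeal ^ (2 * n) := by
    have h5 : 2 * 2 * β.D1 = 2 * 2 * (β.b1 * β.b3) - (2 * β.b2) * (2 * β.b2) := by
      simp only [Blk.D1]
      ring
    rw [h5]
    exact Ideal.sub_mem _ (Ideal.mul_mem_left _ _ (Pool.Agent.H28.A4.mul_mem_le l k2 k1 (by omega)))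
      (Pool.Agent.H28.A4.mul_mem_le l k4 k4 (by omega))
  rw [mem_iff l (mul_ne_zero (mul_ne_zero h2 h2) hD), Pool.Agent.H28.A4.od_mul l (mul_ne_zero h2 h2) hD,
    Pool.Agent.H28.A4.od_mul l h2 h2] at k5
  omega

/-- the pair of a solution -/
private theorem pair_mem (l : HeightOneSpectrum O) {β : Blk O} {k : ℕ} (hE : β.E ∈ l.asIdeal ^ k) (e1 e2 : O)
    {π : Row O} {r r' u v : O} (h : Sol β π r r' u v) :
    β.Ab e1 e2 (β.eb1 π) (β.eb2 π) ^ 2 + β.D1 * (e1 * β.eb2 π - e2 * β.eb1 π) ^ 2 ∈ l.asIdeal ^ k := by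
  rw [ab_mul, ← Pool.Agent.H28.A4.E_mul h]
  exact Ideal.mul_mem_left _ _ (Ideal.mul_mem_right _ _ hE)

private theorem pair_sub (β : Blk O) (e1 e2 : O) (π π' : Row O) :
    β.Ab e1 e2 (β.eb1 π) (β.eb2 π) * (e1 * β.eb2 π' - e2 * β.eb1 π') -
      (e1 * β.eb2 π - e2 * β.eb1 π) * β.Ab e1 e2 (β.eb1 π') (β.eb2 π') =
      β.Ab e1 e2 e1 e2 * β.D1 * β.br π π' := by
  rw [ab_sub, Pool.Agent.H28.A4.eta_wedge, mul_assoc]

/-- the `b`-side, with loss -/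
theorem side (l : HeightOneSpectrum O) (β : Blk O) (h2 : (2 : O) ≠ 0) (hD : β.D1 ≠ 0) (k : ℕ)
    (hE : β.E ∈ l.asIdeal ^ k) :
    ∃ cl : Row O → ℕ, (∀ π, cl π < k + 1) ∧ ∀ (π π' : Row O) (r r' u v ρ ρ' u' v' : O),
      Sol β π r r' u v → Sol β π' ρ ρ' u' v' → cl π = cl π' →
      β.br π π' ∈ l.asIdeal ^ (k - (3 * od l β.D1 + 3 * od l (2 : O))) := by
  obtain ⟨e1, e2, hA0, hA⟩ := exists_e l β h2 hD
  have hAD : β.Ab e1 e2 e1 e2 * β.D1 ≠ 0 := mul_ne_zero hA0 hD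
  have hodAD := Pool.Agent.H28.A4.od_mul l hA0 hD
  by_cases hx : ∃ x : O, x ^ 2 + β.D1 ∈ l.asIdeal ^ (od l β.D1 + 2 * od l (2 : O) + 1)
  · obtain ⟨cl, hcl, hcl2⟩ := prs_sq l h2 hD hx k
    refine ⟨fun π => cl (β.Ab e1 e2 (β.eb1 π) (β.eb2 π)) (e1 * β.eb2 π - e2 * β.eb1 π), fun π => hcl _ _, ?_⟩
    intro π π' r r' u v ρ ρ' u' v' h h' hc
    have k1 := hcl2 _ _ _ _ (pair_mem l hE e1 e2 h) (pair_mem l hE e1 e2 h') hc
    rw [pair_sub] at k1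
    have k2 := Pool.Agent.H28.A4.cancel_od l hAD k1
    rw [hodAD] at k2
    exact Pool.Agent.H28.FP.pow_antitone l (by omega) k2
  · push Not at hx
    refine ⟨fun _ => 0, fun _ => Nat.succ_pos k, ?_⟩
    intro π π' r r' u v ρ ρ' u' v' h h' _
    have k1 := prs_ns l hD hx k (pair_mem l hE e1 e2 h) (pair_mem l hE e1 e2 h')
    rw [pair_sub] at k1
    have k2 := Pool.Agent.H28.A4.cancel_od l hAD k1
    rw [hodAD] at k2
    exact Pool.Agent.H28.FP.pow_antitone l (by omega) k2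

/-- the `b`-side at an inert prime: one class, no loss -/
theorem side_ns (l : HeightOneSpectrum O) (β : Blk O) (h2 : (2 : O) ∉ l.asIdeal)
    (hD : β.D1 ∉ l.asIdeal) (hns : ∀ x : O, x ^ 2 + β.D1 ∉ l.asIdeal) (k : ℕ)
    (hE : β.E ∈ l.asIdeal ^ k) {π π' : Row O} {r r' u v ρ ρ' u' v' : O}
    (h : Sol β π r r' u v) (h' : Sol β π' ρ ρ' u' v') : β.br π π' ∈ l.asIdeal ^ k := by
  have h20 : (2 : O) ≠ 0 := fun h0 => h2 (by rw [h0]; exact Ideal.zero_mem _)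
  have hD0 : β.D1 ≠ 0 := fun h0 => hD (by rw [h0]; exact Ideal.zero_mem _)
  have o2 := od_zero l h2
  have oD := od_zero l hD
  obtain ⟨e1, e2, hA0, hA⟩ := exists_e l β h20 hD0
  have hAD : β.Ab e1 e2 e1 e2 * β.D1 ≠ 0 := mul_ne_zero hA0 hD0
  have hodAD := Pool.Agent.H28.A4.od_mul l hA0 hD0
  have hx : ∀ x : O, x ^ 2 + β.D1 ∉ l.asIdeal ^ (od l β.D1 + 2 * od l (2 : O) + 1) := by
    intro x hmem
    rw [o2, oD, mul_zero, zero_add, pow_one] at hmem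
    exact hns x hmem
  have k1 := prs_ns l hD0 hx k (pair_mem l hE e1 e2 h) (pair_mem l hE e1 e2 h')
  rw [pair_sub] at k1
  have k2 := Pool.Agent.H28.A4.cancel_od l hAD k1
  rw [hodAD] at k2
  exact Pool.Agent.H28.FP.pow_antitone l (by omega) k2

end H1.LC
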