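import Mathlib
import Pool.Agent.H1.LC.Tra

set_option autoImplicit false

/-!
# W1#, LOC: the primes that contain `6 M`

PROOF of `bad`. `a = od l (6 M) ≥ 1` (`6 M ∈ l`, `6 M ≠ 0`), `od l 2, od l 3, od l M ≤ a` (`od_mul`).
`(6 M) ^ 48 ∈ l ^ (48 a)` (`H28.A4.pow_mem_mul`). `k = od l E`.
(1) `D1 ∉ l ^ (14 a + 1)`: `D1 ≠ 0`, `od l D1 ≤ 14 a` (`od_lt_of_nmem`); `cl` of `Tra.side`:
`br ∈ l ^ (k - (3 od l D1 + 3 od l 2))`, the loss is `≤ 45 a`, `mul_mem_le`.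
(2) `D3 ∉ l ^ (14 a + 1)`: (1) for `sw β` (`H28.A4.sw`, `sw_D1`, `sw_E`, `sw_br`, `sw_Sol`,
`swr`): `cl π = cl' (swr π)`.
(3) both in `l ^ (14 a + 1)`: `cl = 0`. For a solution: as in `H28.A4.loc_bad`: `D2 ∉ l ^ (14 a + 1)`
because `9 u ^ 2 v ^ 2 ∈ (D1, D2, D3)` (`FP.g1 (bl β) (rw4 π) r r' u v (eqs_of h)`) and
`od l (9 u ^ 2 v ^ 2) ≤ 2 a + 2 (2 a + 1) + 2 (2 a + 1) = 10 a + 4 ≤ 14 a`; hence
`od l E < 2 (14 a + 1) ≤ 30 a` (copy the end of `loc_bad`), and `(6 M) ^ 48 br ∈ l ^ (48 a)`.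
-/

namespace H1.LC

open H88.A4 IsDedekindDomain
open Pool.Agent.H28.FP (od mem_iff mem_od)

variable {O : Type} [CommRing O] [IsDedekindDomain O]

/-- the primes that contain `6 M` -/
theorem bad (l : HeightOneSpectrum O) {M : O} (hM : M ≠ 0) (h2 : (2 : O) ≠ 0) (h3 : (3 : O) ≠ 0)
    (hml : 6 * M ∈ l.asIdeal) (β : Blk O) (hE : β.E ≠ 0) :
    ∃ cl : Row O → ℕ, (∀ π, cl π < od l β.E + 1) ∧ ∀ π π' : Row O, LS l M β π → LS l M β π' →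
      cl π = cl π' → (6 * M) ^ 48 * β.br π π' ∈ l.asIdeal ^ od l β.E := by
  have h60 : (6 : O) * M ≠ 0 := by
    have : (6 : O) = 2 * 3 := by norm_num
    rw [this]
    exact mul_ne_zero (mul_ne_zero h2 h3) hM
  have hod6 : od l (6 * M) = od l (2 : O) + od l (3 : O) + od l M := by
    have : (6 : O) = 2 * 3 := by norm_num
    rw [this, Pool.Agent.H28.A4.od_mul l (mul_ne_zero h2 h3) hM, Pool.Agent.H28.A4.od_mul l h2 h3]
  set a := od l (6 * M) with ha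
  have ha1 : 1 ≤ a := (mem_iff l h60 1).1 (by rwa [pow_one])
  have hpow : (6 * M) ^ 48 ∈ l.asIdeal ^ (48 * a) := Pool.Agent.H28.A4.pow_mem_mul l 48 (mem_od l _ h60)
  by_cases k1 : β.D1 ∈ l.asIdeal ^ (14 * a + 1)
  swap
  · obtain ⟨hD0, hDo⟩ := Pool.Agent.H28.A4.od_lt_of_nmem l k1
    obtain ⟨cl, hcl, hcl2⟩ := side l β h2 hD0 (od l β.E) (mem_od l _ hE)
    refine ⟨cl, hcl, ?_⟩
    rintro π π' ⟨r, r', u, v, -, h⟩ ⟨ρ, ρ', u', v', -, h'⟩ hc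
    exact Pool.Agent.H28.A4.mul_mem_le l hpow (hcl2 _ _ _ _ _ _ _ _ _ _ h h' hc) (by omega)
  by_cases k3 : β.D3 ∈ l.asIdeal ^ (14 * a + 1)
  swap
  · obtain ⟨hD0, hDo⟩ := Pool.Agent.H28.A4.od_lt_of_nmem l k3
    have hEs : (Pool.Agent.H28.A4.sw β).E ∈ l.asIdeal ^ od l β.E := by
      rw [Pool.Agent.H28.A4.sw_E]
      exact mem_od l _ hE
    obtain ⟨cl, hcl, hcl2⟩ := side l (Pool.Agent.H28.A4.sw β) h2 hD0 (od l β.E) hEs
    refine ⟨fun π => cl (Pool.Agent.H28.A4.swr π), fun π => hcl _, ?_⟩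
    rintro π π' ⟨r, r', u, v, -, h⟩ ⟨ρ, ρ', u', v', -, h'⟩ hc
    have k4 := hcl2 _ _ _ _ _ _ _ _ _ _ (Pool.Agent.H28.A4.sw_Sol h) (Pool.Agent.H28.A4.sw_Sol h') hc
    rw [Pool.Agent.H28.A4.sw_br, Pool.Agent.H28.A4.sw_D1] at k4
    exact Pool.Agent.H28.A4.mul_mem_le l hpow k4 (by omega)
  refine ⟨fun _ => 0, fun _ => Nat.succ_pos _, ?_⟩
  rintro π π' ⟨r, r', u, v, hadm, h⟩ _ _
  have k2 : β.D2 ∉ l.asIdeal ^ (14 * a + 1) := by
    intro k2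
    have hg : 9 * u ^ 2 * v ^ 2 ∈ l.asIdeal ^ (14 * a + 1) := by
      refine (Ideal.span_le.2 ?_) (Pool.Agent.H28.FP.g1 (Pool.Agent.H28.A4.bl β) (Pool.Agent.H28.A4.rw4 π) r r' u v
        (Pool.Agent.H28.A4.eqs_of h))
      intro z hz
      rcases hz with rfl | rfl | rfl
      · exact k1
      · exact k2
      · exact k3
    have hu := hadm.u0
    have hv := hadm.v0
    have hu' := hadm.ou
    have hv' := hadm.ov
    have e2 : 9 * u ^ 2 * v ^ 2 = (3 * 3) * ((u * u) * (v * v)) := by ring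
    rw [e2, mem_iff l (mul_ne_zero (mul_ne_zero h3 h3) (mul_ne_zero (mul_ne_zero hu hu)
      (mul_ne_zero hv hv))), Pool.Agent.H28.A4.od_mul l (mul_ne_zero h3 h3) (mul_ne_zero (mul_ne_zero hu hu)
      (mul_ne_zero hv hv)), Pool.Agent.H28.A4.od_mul l h3 h3,
      Pool.Agent.H28.A4.od_mul l (mul_ne_zero hu hu) (mul_ne_zero hv hv),
      Pool.Agent.H28.A4.od_mul l hu hu, Pool.Agent.H28.A4.od_mul l hv hv] at hg
    omega
  obtain ⟨hD0, hDo⟩ := Pool.Agent.H28.A4.od_lt_of_nmem l k2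
  have hEo : od l β.E < 2 * (14 * a + 1) := by
    by_contra hcon
    have h5 : β.E ∈ l.asIdeal ^ (2 * (14 * a + 1)) := (mem_iff l hE _).2 (not_lt.1 hcon)
    have h6 : β.D1 * β.D3 ∈ l.asIdeal ^ (2 * (14 * a + 1)) :=
      Pool.Agent.H28.A4.mul_mem_le l k1 k3 (by omega)
    have h7 : β.D2 * β.D2 ∈ l.asIdeal ^ (2 * (14 * a + 1)) := by
      have : β.D2 * β.D2 = β.D1 * β.D3 - β.E := by rw [Blk.E]; ring
      rw [this]
      exact Ideal.sub_mem _ h6 h5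
    rw [mem_iff l (mul_ne_zero hD0 hD0), Pool.Agent.H28.A4.od_mul l hD0 hD0] at h7
    omega
  exact Ideal.mul_mem_right _ _ (Pool.Agent.H28.FP.pow_antitone l (by omega) hpow)

end H1.LC
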