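import Mathlib
import Pool.Agent.H1.LC.Df
import Pool.Agent.H88.WS.Defs

set_option autoImplicit false

/-!
# W1#, LOC: combination of the local classes; the exponents and the primes of `H88/WS/Defs.lean`

PROOF of `comb`: `Finset.induction_on S`; insert `i`: `cl = cl_i * N + cl_S` with `N = ∏_{S} N_j` (mixed
radix; see the end of `H28.A4.locStmt` for the arithmetic: `Nat.mul_add_mod_of_lt`).
PROOF of `od_eq`: `Ideal.count_normalizedFactors_eq` (`n = FP.od l x`: `span {x} ≤ l ^ n`, not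
`≤ l ^ (n + 1)`, `FP.mem_iff`, `Ideal.span_singleton_le_iff_mem`).
PROOF of `pf_iff`: `pf` is the `toFinset` of the normalized factors; a normalized factor of a nonzero ideal is
prime and nonzero (`UniqueFactorizationMonoid.prime_of_normalized_factor`, `Ideal.isPrime_of_prime`) and
divides; conversely `l ∣ (x)` (`Ideal.dvd_span_singleton`) gives `l ∈ normalizedFactors`
(`UniqueFactorizationMonoid.mem_normalizedFactors_iff'` or `Ideal.mem_normalizedFactors_iff`).
-/

open scoped NumberField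

namespace H1.LC

open H88.A4 IsDedekindDomain
open Pool.Agent.H28.FP (od mem_iff mem_od)

theorem comb {α ι : Type} (S : Finset ι) (P : α → Prop) (Q : ι → α → α → Prop) (N : ι → ℕ)
    (h : ∀ i ∈ S, ∃ cl : α → ℕ, (∀ a, cl a < N i) ∧
      ∀ a b, P a → P b → cl a = cl b → Q i a b) :
    ∃ cl : α → ℕ, (∀ a, cl a < ∏ i ∈ S, N i) ∧
      ∀ a b, P a → P b → cl a = cl b → ∀ i ∈ S, Q i a b := by
  classical
  induction S using Finset.induction_on with
  | empty =>
    refine ⟨fun _ => 0, fun _ => ?_, fun _ _ _ _ _ i hi => absurd hi (Finset.notMem_empty i)⟩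
    rw [Finset.prod_empty]
    exact Nat.one_pos
  | insert i S hi ih =>
    obtain ⟨c1, h1, h2⟩ := h i (Finset.mem_insert_self i S)
    obtain ⟨c2, h3, h4⟩ := ih fun j hj => h j (Finset.mem_insert_of_mem hj)
    refine ⟨fun a => c1 a * (∏ j ∈ S, N j) + c2 a, fun a => ?_, fun a b ha hb hab => ?_⟩
    · rw [Finset.prod_insert hi]
      calc c1 a * (∏ j ∈ S, N j) + c2 a < c1 a * (∏ j ∈ S, N j) + ∏ j ∈ S, N j :=
            Nat.add_lt_add_left (h3 a) _
        _ = (c1 a + 1) * ∏ j ∈ S, N j := by ring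
        _ ≤ N i * ∏ j ∈ S, N j := Nat.mul_le_mul_right _ (h1 a)
    · have hpos : 0 < ∏ j ∈ S, N j := lt_of_le_of_lt (Nat.zero_le _) (h3 a)
      have e1 : c2 a = c2 b := by
        have e := congrArg (fun t => t % ∏ j ∈ S, N j) hab
        simp only [Nat.mul_add_mod_self_right, Nat.mod_eq_of_lt (h3 a), Nat.mod_eq_of_lt (h3 b)] at e
        exact e
      have e2 : c1 a = c1 b := by
        have e : c1 a * (∏ j ∈ S, N j) + c2 a = c1 b * (∏ j ∈ S, N j) + c2 b := hab
        rw [e1] at e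
        exact Nat.eq_of_mul_eq_mul_right hpos (Nat.add_right_cancel e)
      intro j hj
      rcases Finset.mem_insert.1 hj with rfl | hj
      · exact h2 a b ha hb e2
      · exact h4 a b ha hb e1 j hj

variable {K : Type} [Field K] [NumberField K]

theorem od_eq (l : HeightOneSpectrum (𝓞 K)) {x : 𝓞 K} (hx : x ≠ 0) :
    H88.WS.od l.asIdeal (Ideal.span {x}) = od l x := by
  unfold H88.WS.od
  have hp : l.asIdeal.IsPrime := l.isPrime
  refine Ideal.count_normalizedFactors_eq ?_ ?_
  · rw [Ideal.span_singleton_le_iff_mem]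
    exact mem_od l x hx
  · rw [Ideal.span_singleton_le_iff_mem, mem_iff l hx]
    omega

theorem pf_iff {x : 𝓞 K} (hx : x ≠ 0) (P : Ideal (𝓞 K)) :
    P ∈ H88.WS.pf (Ideal.span {x}) ↔ ∃ l : HeightOneSpectrum (𝓞 K), l.asIdeal = P ∧ x ∈ P := by
  classical
  have hI : Ideal.span {x} ≠ ⊥ := by
    rw [Ne, Ideal.span_singleton_eq_bot]
    exact hx
  unfold H88.WS.pf
  rw [Multiset.mem_toFinset, Ideal.mem_normalizedFactors_iff hI, Ideal.span_singleton_le_iff_mem]
  constructor
  · rintro ⟨h1, h2⟩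
    refine ⟨⟨P, h1, fun h0 => hx ?_⟩, rfl, h2⟩
    rw [h0] at h2
    exact (Submodule.mem_bot _).1 h2
  · rintro ⟨l, rfl, h2⟩
    exact ⟨l.isPrime, h2⟩

end H1.LC
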