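import Mathlib
import Pool.Agent.H1.LC.Tra

set_option autoImplicit false

/-!
# W1#, LOC: the primes that do not contain `6 M`

PROOF of `good3`: copy the end of `H28.A4.loc_good` (`D2 ∈ l` from `E, D1, D3 ∈ l`; `u ∈ l` or
`v ∈ l` by `FP.g1`; `M ∉ l` so `od l u, od l v ≤ 1`, i.e. `u, v ∉ l ^ 2`, and not both in `l`; then
`H28.A4.good_c`, `good_b`, `br_mem_c`, `br_mem_b`; `od l E ≤ 2` from `E ∉ l ^ 3`, `od_lt_of_nmem`).
PROOF of `notboth`: if all entries of `b` and `c` are in `l`, then `D1, D3, Ab(p,p), Ac(q,q) ∈ l`, so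
`u, v ∈ l` by `e1`, `e4`, against `LAdm.cop`.
PROOF of `good1`: `Tra.side` with `od l D1 = od l 2 = 0` (`od_zero`). `good1c`, `good1n`: for `sw β`.
-/

namespace H1.LC

open H88.A4 IsDedekindDomain
open Pool.Agent.H28.FP (od mem_iff mem_od)

variable {O : Type} [CommRing O] [IsDedekindDomain O]

private theorem nm6 (l : HeightOneSpectrum O) {M : O} (h6 : 6 * M ∉ l.asIdeal) :
    (2 : O) ∉ l.asIdeal ∧ (3 : O) ∉ l.asIdeal ∧ M ∉ l.asIdeal := by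
  refine ⟨fun h' => h6 ?_, fun h' => h6 ?_, fun h' => h6 (Ideal.mul_mem_left _ _ h')⟩
  · have e : (6 : O) * M = (3 * M) * 2 := by ring
    rw [e]
    exact Ideal.mul_mem_left _ _ h'
  · have e : (6 : O) * M = (2 * M) * 3 := by ring
    rw [e]
    exact Ideal.mul_mem_left _ _ h'

private theorem nsq (l : HeightOneSpectrum O) {M u : O} (hM : M ∉ l.asIdeal) (hu : u ≠ 0)
    (ho : od l u ≤ 2 * od l M + 1) : u ∉ l.asIdeal ^ 2 := by
  intro h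
  have h1 := (mem_iff l hu 2).1 h
  rw [od_zero l hM] at ho
  omega

theorem good3 (l : HeightOneSpectrum O) {M : O} (h6 : 6 * M ∉ l.asIdeal) (β : Blk O)
    (hE : β.E ≠ 0) (hEl : β.E ∈ l.asIdeal) (hD1 : β.D1 ∈ l.asIdeal) (hD3 : β.D3 ∈ l.asIdeal)
    {π : Row O} (h : LS l M β π) :
    ((β.b1 ∈ l.asIdeal ∧ β.b2 ∈ l.asIdeal ∧ β.b3 ∈ l.asIdeal) ∨
      (β.c1 ∈ l.asIdeal ∧ β.c2 ∈ l.asIdeal ∧ β.c3 ∈ l.asIdeal)) ∧
    (∀ π' : Row O, β.br π π' ∈ l.asIdeal) ∧ od l β.E ≤ 2 := by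
  have hp := l.isPrime
  obtain ⟨h2l, h3l, hMl⟩ := nm6 l h6
  obtain ⟨r, r', u, v, ha, hs⟩ := h
  have hu2 := nsq l hMl ha.u0 ha.ou
  have hv2 := nsq l hMl ha.v0 ha.ov
  have k2 : β.D2 ∈ l.asIdeal := by
    apply hp.mem_of_pow_mem 2
    have e : β.D2 ^ 2 = β.D1 * β.D3 - β.E := by rw [Blk.E]; ring
    rw [e]
    exact Ideal.sub_mem _ (Ideal.mul_mem_right _ _ hD1) hEl
  have huv : u ∈ l.asIdeal ∨ v ∈ l.asIdeal := by
    have hg : 9 * u ^ 2 * v ^ 2 ∈ l.asIdeal := by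
      refine (Ideal.span_le.2 ?_) (Pool.Agent.H28.FP.g1 (Pool.Agent.H28.A4.bl β)
        (Pool.Agent.H28.A4.rw4 π) r r' u v (Pool.Agent.H28.A4.eqs_of hs))
      intro z hz
      rcases hz with rfl | rfl | rfl
      · exact hD1
      · exact k2
      · exact hD3
    rcases hp.mem_or_mem hg with h5 | h5
    · rcases hp.mem_or_mem h5 with h6 | h6
      · exfalso
        have e9 : (9 : O) = 3 * 3 := by norm_num
        rw [e9] at h6
        rcases hp.mem_or_mem h6 with h7 | h7 <;> exact h3l h7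
      · exact Or.inl (hp.mem_of_pow_mem 2 h6)
    · exact Or.inr (hp.mem_of_pow_mem 2 h5)
  rcases ha.cop hMl with hu | hv
  · have hv := huv.resolve_left hu
    obtain ⟨⟨c1, c2, c3⟩, hE3⟩ := Pool.Agent.H28.A4.good_c l hs hD1 k2 hD3 hv hu hv2
    refine ⟨Or.inr ⟨c1, c2, c3⟩, fun π' => Pool.Agent.H28.A4.br_mem_c _ π π' c1 c2 c3 hD1, ?_⟩
    have := (Pool.Agent.H28.A4.od_lt_of_nmem l hE3).2
    omega
  · have hu := huv.resolve_right hv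
    obtain ⟨⟨b1, b2, b3⟩, hE3⟩ := Pool.Agent.H28.A4.good_b l hs hD1 k2 hD3 hu hv hu2
    refine ⟨Or.inl ⟨b1, b2, b3⟩, fun π' => Pool.Agent.H28.A4.br_mem_b _ π π' b1 b2 b3 hD3, ?_⟩
    have := (Pool.Agent.H28.A4.od_lt_of_nmem l hE3).2
    omega

private theorem dmem (I : Ideal O) {a b c : O} (h1 : a ∈ I) (h2 : b ∈ I) (r x1 x2 : O) :
    r * (a * c - b ^ 2) - (c * x1 * x1 - b * (x1 * x2 + x2 * x1) + a * x2 * x2) ∈ I ↔
      c * x1 * x1 ∈ I := by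
  have e : r * (a * c - b ^ 2) - (c * x1 * x1 - b * (x1 * x2 + x2 * x1) + a * x2 * x2) =
      (r * c - x2 * x2) * a + (x1 * x2 + x2 * x1 - r * b) * b - c * x1 * x1 := by ring
  rw [e]
  have h3 : (r * c - x2 * x2) * a + (x1 * x2 + x2 * x1 - r * b) * b ∈ I :=
    I.add_mem (I.mul_mem_left _ h1) (I.mul_mem_left _ h2)
  constructor
  · intro h
    have := I.sub_mem h3 h
    rwa [sub_sub_cancel] at this
  · intro h
    exact I.sub_mem h3 h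

theorem notboth (l : HeightOneSpectrum O) {M : O} (h6 : 6 * M ∉ l.asIdeal) (β : Blk O)
    {π : Row O} (h : LS l M β π)
    (hb : β.b1 ∈ l.asIdeal ∧ β.b2 ∈ l.asIdeal ∧ β.b3 ∈ l.asIdeal)
    (hc : β.c1 ∈ l.asIdeal ∧ β.c2 ∈ l.asIdeal ∧ β.c3 ∈ l.asIdeal) : False := by
  obtain ⟨-, -, hMl⟩ := nm6 l h6
  obtain ⟨r, r', u, v, ha, hs⟩ := h
  have hu : u ∈ l.asIdeal := by
    rw [← hs.e1, Blk.D1, Blk.Ab]
    rw [dmem l.asIdeal hb.1 hb.2.1]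
    exact l.asIdeal.mul_mem_right _ (l.asIdeal.mul_mem_right _ hb.2.2)
  have hv : v ∈ l.asIdeal := by
    rw [← hs.e4, Blk.D3, Blk.Ac]
    rw [dmem l.asIdeal hc.1 hc.2.1]
    exact l.asIdeal.mul_mem_right _ (l.asIdeal.mul_mem_right _ hc.2.2)
  rcases ha.cop hMl with h | h
  · exact h hu
  · exact h hv

/-- `D1 ∉ l`: `k + 1` classes -/
theorem good1 (l : HeightOneSpectrum O) {M : O} (h6 : 6 * M ∉ l.asIdeal) (β : Blk O)
    (hD : β.D1 ∉ l.asIdeal) (k : ℕ) (hE : β.E ∈ l.asIdeal ^ k) :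
    ∃ cl : Row O → ℕ, (∀ π, cl π < k + 1) ∧ ∀ π π' : Row O, LS l M β π → LS l M β π' →
      cl π = cl π' → β.br π π' ∈ l.asIdeal ^ k := by
  obtain ⟨h2l, -, -⟩ := nm6 l h6
  have h20 : (2 : O) ≠ 0 := fun h0 => h2l (by rw [h0]; exact Ideal.zero_mem _)
  have hD0 : β.D1 ≠ 0 := fun h0 => hD (by rw [h0]; exact Ideal.zero_mem _)
  obtain ⟨cl, hlt, hcl⟩ := side l β h20 hD0 k hE
  refine ⟨cl, hlt, ?_⟩
  rintro π π' ⟨r, r', u, v, -, hs⟩ ⟨ρ, ρ', u', v', -, hs'⟩ he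
  have := hcl π π' r r' u v ρ ρ' u' v' hs hs' he
  rw [od_zero l hD, od_zero l h2l] at this
  exact this

private theorem ls_sw {l : HeightOneSpectrum O} {M : O} {β : Blk O} {π : Row O}
    (h : LS l M β π) : LS l M (Pool.Agent.H28.A4.sw β) (Pool.Agent.H28.A4.swr π) := by
  obtain ⟨r, r', u, v, ha, hs⟩ := h
  exact ⟨r', r, v, u, ⟨ha.v0, ha.u0, ha.ov, ha.ou, fun h => (ha.cop h).symm⟩,
    Pool.Agent.H28.A4.sw_Sol hs⟩

/-- `D3 ∉ l`: `k + 1` classes -/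
theorem good1c (l : HeightOneSpectrum O) {M : O} (h6 : 6 * M ∉ l.asIdeal) (β : Blk O)
    (hD : β.D3 ∉ l.asIdeal) (k : ℕ) (hE : β.E ∈ l.asIdeal ^ k) :
    ∃ cl : Row O → ℕ, (∀ π, cl π < k + 1) ∧ ∀ π π' : Row O, LS l M β π → LS l M β π' →
      cl π = cl π' → β.br π π' ∈ l.asIdeal ^ k := by
  obtain ⟨cl, hlt, hcl⟩ := good1 l h6 (Pool.Agent.H28.A4.sw β) hD k
    (by rw [Pool.Agent.H28.A4.sw_E]; exact hE)
  refine ⟨fun π => cl (Pool.Agent.H28.A4.swr π), fun π => hlt _, ?_⟩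
  intro π π' h h' he
  have := hcl _ _ (ls_sw h) (ls_sw h') he
  rwa [Pool.Agent.H28.A4.sw_br] at this

/-- `D3 ∉ l`, `-D3` not a square modulo `l`: one class -/
theorem good1n (l : HeightOneSpectrum O) {M : O} (h6 : 6 * M ∉ l.asIdeal) (β : Blk O)
    (hD : β.D3 ∉ l.asIdeal) (hns : ∀ x : O, x ^ 2 + β.D3 ∉ l.asIdeal) (k : ℕ)
    (hE : β.E ∈ l.asIdeal ^ k) {π π' : Row O} (h : LS l M β π) (h' : LS l M β π') :
    β.br π π' ∈ l.asIdeal ^ k := by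
  obtain ⟨h2l, -, -⟩ := nm6 l h6
  obtain ⟨r, r', u, v, -, hs⟩ := h
  obtain ⟨ρ, ρ', u', v', -, hs'⟩ := h'
  have := side_ns l (Pool.Agent.H28.A4.sw β) h2l hD hns k
    (by rw [Pool.Agent.H28.A4.sw_E]; exact hE) (Pool.Agent.H28.A4.sw_Sol hs)
    (Pool.Agent.H28.A4.sw_Sol hs')
  rwa [Pool.Agent.H28.A4.sw_br] at this

end H1.LC
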