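import Mathlib
import Pool.Agent.H1.LC.Df

set_option autoImplicit false

/-!
# W1#, LOC: the squarefree ideals `gb`, `gc`

PROOF of `exists_gg2`: copy `H28.A4.exists_gg` (Fin.lean), with the two finite sets of primes
`Sb = {l | m ∉ l, b1, b2, b3, D3 ∈ l, not (c1, c2, c3 ∈ l)}`,
`Sc = {l | m ∉ l, c1, c2, c3, D1 ∈ l, not (b1, b2, b3 ∈ l)}` (both are contained in the primes of `E`),
`gb = ∏_{Sb} l`, `gc = ∏_{Sc} l` (`H28.A4.sqf_prod`, `mem_prod`, `cop_prod`, `cop_of_ne`, `fin_dvd`).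
They are disjoint (`Sb` has `not c ∈ l`, `Sc` has `c ∈ l`). `IsCoprime gb (c1, c2, c3)`: `IsCoprime.prod_left`
over the maximal ideals `l` of `Sb`, each of which does not contain the ideal `(c1, c2, c3)`
(`Ideal.isCoprime_iff_sup_eq`, `l.isMaximal`, e.g. `Ideal.IsMaximal.coprime_of_ne`-like: `l < l ⊔ (c)`).
`gb gc ≤ l`: `l` prime, so `l' ≤ l` for one of the factors (`Ideal.IsPrime.mul_le`,
`Ideal.IsPrime.prod_le`), `l' = l` (both maximal), so `l ∈ Sb` or `l ∈ Sc`; in both cases `D1, D3 ∈ l`.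
The last two: the product is contained in each factor (`Finset.dvd_prod_of_mem`, `Ideal.dvd_iff_le`,
`Ideal.mul_le_left`, `Ideal.mul_le_right`).
-/

namespace H1.LC

open H88.A4 IsDedekindDomain
open Pool.Agent.H28.FP (od mem_iff mem_od)

variable {O : Type} [CommRing O] [IsDedekindDomain O]

/-- the squarefree ideals `gb`, `gc` -/
theorem exists_gg2 (β : Blk O) (hE : β.E ≠ 0) (m : O) : ∃ gb gc : Ideal O, Squarefree gb ∧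
    Squarefree gc ∧ IsCoprime gb gc ∧ IsCoprime gb (Ideal.span {β.c1, β.c2, β.c3}) ∧
    (β.b1 ∈ gb ∧ β.b2 ∈ gb ∧ β.b3 ∈ gb) ∧
    (β.c1 ∈ gc ∧ β.c2 ∈ gc ∧ β.c3 ∈ gc ∧ β.D1 ∈ gc) ∧
    (∀ l : HeightOneSpectrum O, gb * gc ≤ l.asIdeal →
      m ∉ l.asIdeal ∧ β.D1 ∈ l.asIdeal ∧ β.D3 ∈ l.asIdeal) ∧
    (∀ l : HeightOneSpectrum O, m ∉ l.asIdeal →
      (β.b1 ∈ l.asIdeal ∧ β.b2 ∈ l.asIdeal ∧ β.b3 ∈ l.asIdeal) → β.D3 ∈ l.asIdeal →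
      ¬ (β.c1 ∈ l.asIdeal ∧ β.c2 ∈ l.asIdeal ∧ β.c3 ∈ l.asIdeal) → gb * gc ≤ l.asIdeal) ∧
    (∀ l : HeightOneSpectrum O, m ∉ l.asIdeal →
      (β.c1 ∈ l.asIdeal ∧ β.c2 ∈ l.asIdeal ∧ β.c3 ∈ l.asIdeal) → β.D1 ∈ l.asIdeal →
      ¬ (β.b1 ∈ l.asIdeal ∧ β.b2 ∈ l.asIdeal ∧ β.b3 ∈ l.asIdeal) → gb * gc ≤ l.asIdeal) := by
  classical
  have hEb : ∀ l : HeightOneSpectrum O, (β.b1 ∈ l.asIdeal ∧ β.b2 ∈ l.asIdeal ∧
      β.b3 ∈ l.asIdeal ∧ β.D3 ∈ l.asIdeal) → β.E ∈ l.asIdeal := by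
    rintro l ⟨h1, h2, h3, h4⟩
    have h5 : β.D2 ∈ l.asIdeal := by
      rw [Blk.D2]
      refine l.asIdeal.sub_mem (l.asIdeal.add_mem (l.asIdeal.mul_mem_right _ h1)
        (l.asIdeal.mul_mem_right _ h3)) (l.asIdeal.mul_mem_right _ (l.asIdeal.mul_mem_left _ h2))
    rw [Blk.E, pow_two]
    exact l.asIdeal.sub_mem (l.asIdeal.mul_mem_left _ h4) (l.asIdeal.mul_mem_left _ h5)
  have hEc : ∀ l : HeightOneSpectrum O, (β.c1 ∈ l.asIdeal ∧ β.c2 ∈ l.asIdeal ∧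
      β.c3 ∈ l.asIdeal ∧ β.D1 ∈ l.asIdeal) → β.E ∈ l.asIdeal := by
    rintro l ⟨h1, h2, h3, h4⟩
    have h5 : β.D2 ∈ l.asIdeal := by
      rw [Blk.D2]
      refine l.asIdeal.sub_mem (l.asIdeal.add_mem (l.asIdeal.mul_mem_left _ h3)
        (l.asIdeal.mul_mem_left _ h1)) (l.asIdeal.mul_mem_left _ h2)
    rw [Blk.E, pow_two]
    exact l.asIdeal.sub_mem (l.asIdeal.mul_mem_right _ h4) (l.asIdeal.mul_mem_left _ h5)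
  have hDb : ∀ l : HeightOneSpectrum O, (β.b1 ∈ l.asIdeal ∧ β.b2 ∈ l.asIdeal ∧
      β.b3 ∈ l.asIdeal) → β.D1 ∈ l.asIdeal := by
    rintro l ⟨h1, h2, h3⟩
    rw [Blk.D1, pow_two]
    exact l.asIdeal.sub_mem (l.asIdeal.mul_mem_right _ h1) (l.asIdeal.mul_mem_right _ h2)
  have hDc : ∀ l : HeightOneSpectrum O, (β.c1 ∈ l.asIdeal ∧ β.c2 ∈ l.asIdeal ∧
      β.c3 ∈ l.asIdeal) → β.D3 ∈ l.asIdeal := by
    rintro l ⟨h1, h2, h3⟩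
    rw [Blk.D3, pow_two]
    exact l.asIdeal.sub_mem (l.asIdeal.mul_mem_right _ h1) (l.asIdeal.mul_mem_right _ h2)
  have hfin := Pool.Agent.H28.A4.fin_dvd β.E hE
  have hSb : {l : HeightOneSpectrum O | m ∉ l.asIdeal ∧ (β.b1 ∈ l.asIdeal ∧ β.b2 ∈ l.asIdeal ∧
      β.b3 ∈ l.asIdeal ∧ β.D3 ∈ l.asIdeal) ∧
      ¬ (β.c1 ∈ l.asIdeal ∧ β.c2 ∈ l.asIdeal ∧ β.c3 ∈ l.asIdeal)}.Finite :=
    hfin.subset fun l hl => hEb l hl.2.1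
  have hSc : {l : HeightOneSpectrum O | m ∉ l.asIdeal ∧ (β.c1 ∈ l.asIdeal ∧ β.c2 ∈ l.asIdeal ∧
      β.c3 ∈ l.asIdeal ∧ β.D1 ∈ l.asIdeal) ∧
      ¬ (β.b1 ∈ l.asIdeal ∧ β.b2 ∈ l.asIdeal ∧ β.b3 ∈ l.asIdeal)}.Finite :=
    hfin.subset fun l hl => hEc l hl.2.1
  have mb : ∀ l, l ∈ hSb.toFinset ↔ m ∉ l.asIdeal ∧ (β.b1 ∈ l.asIdeal ∧ β.b2 ∈ l.asIdeal ∧
      β.b3 ∈ l.asIdeal ∧ β.D3 ∈ l.asIdeal) ∧
      ¬ (β.c1 ∈ l.asIdeal ∧ β.c2 ∈ l.asIdeal ∧ β.c3 ∈ l.asIdeal) := fun l => hSb.mem_toFinset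
  have mc : ∀ l, l ∈ hSc.toFinset ↔ m ∉ l.asIdeal ∧ (β.c1 ∈ l.asIdeal ∧ β.c2 ∈ l.asIdeal ∧
      β.c3 ∈ l.asIdeal ∧ β.D1 ∈ l.asIdeal) ∧
      ¬ (β.b1 ∈ l.asIdeal ∧ β.b2 ∈ l.asIdeal ∧ β.b3 ∈ l.asIdeal) := fun l => hSc.mem_toFinset
  have hpr : ∀ (S : Finset (HeightOneSpectrum O)) (l : HeightOneSpectrum O),
      (∏ l ∈ S, l.asIdeal) ≤ l.asIdeal → l ∈ S := by
    intro S l h
    obtain ⟨l', hl', hle⟩ := (Ideal.IsPrime.prod_le l.isPrime).1 h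
    have := l'.isMaximal.eq_of_le l.isPrime.ne_top hle
    rwa [← HeightOneSpectrum.ext this]
  have hpl : ∀ (S : Finset (HeightOneSpectrum O)) (l : HeightOneSpectrum O), l ∈ S →
      (∏ l ∈ S, l.asIdeal) ≤ l.asIdeal := fun S l hl =>
    Ideal.dvd_iff_le.1 (Finset.dvd_prod_of_mem (fun l : HeightOneSpectrum O => l.asIdeal) hl)
  refine ⟨∏ l ∈ hSb.toFinset, l.asIdeal, ∏ l ∈ hSc.toFinset, l.asIdeal, Pool.Agent.H28.A4.sqf_prod _,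
    Pool.Agent.H28.A4.sqf_prod _, Pool.Agent.H28.A4.cop_prod _ _ ?_, ?_,
    ⟨Pool.Agent.H28.A4.mem_prod _ _ ?_, Pool.Agent.H28.A4.mem_prod _ _ ?_, Pool.Agent.H28.A4.mem_prod _ _ ?_⟩,
    ⟨Pool.Agent.H28.A4.mem_prod _ _ ?_, Pool.Agent.H28.A4.mem_prod _ _ ?_, Pool.Agent.H28.A4.mem_prod _ _ ?_,
      Pool.Agent.H28.A4.mem_prod _ _ ?_⟩, ?_, ?_, ?_⟩
  · rw [Finset.disjoint_left]
    intro l hl hl'
    rw [mb] at hl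
    rw [mc] at hl'
    exact hl.2.2 ⟨hl'.2.1.1, hl'.2.1.2.1, hl'.2.1.2.2.1⟩
  · refine IsCoprime.prod_left fun l hl => ?_
    rw [mb] at hl
    have hmax := l.isMaximal
    rw [Ideal.isCoprime_iff_sup_eq]
    by_contra hcon
    have h1 : l.asIdeal = l.asIdeal ⊔ Ideal.span {β.c1, β.c2, β.c3} := hmax.eq_of_le hcon le_sup_left
    have h2 : Ideal.span {β.c1, β.c2, β.c3} ≤ l.asIdeal := by
      rw [h1]
      exact le_sup_right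
    exact hl.2.2 ⟨h2 (Ideal.subset_span (by simp)), h2 (Ideal.subset_span (by simp)),
      h2 (Ideal.subset_span (by simp))⟩
  · intro l hl
    exact ((mb l).1 hl).2.1.1
  · intro l hl
    exact ((mb l).1 hl).2.1.2.1
  · intro l hl
    exact ((mb l).1 hl).2.1.2.2.1
  · intro l hl
    exact ((mc l).1 hl).2.1.1
  · intro l hl
    exact ((mc l).1 hl).2.1.2.1
  · intro l hl
    exact ((mc l).1 hl).2.1.2.2.1
  · intro l hl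
    exact ((mc l).1 hl).2.1.2.2.2
  · intro l hl
    rcases l.isPrime.mul_le.1 hl with h | h
    · have h1 := (mb l).1 (hpr _ _ h)
      exact ⟨h1.1, hDb l ⟨h1.2.1.1, h1.2.1.2.1, h1.2.1.2.2.1⟩, h1.2.1.2.2.2⟩
    · have h1 := (mc l).1 (hpr _ _ h)
      exact ⟨h1.1, h1.2.1.2.2.2, hDc l ⟨h1.2.1.1, h1.2.1.2.1, h1.2.1.2.2.1⟩⟩
  · intro l hm h1 h2 h3
    exact Ideal.mul_le_left.trans (hpl _ l ((mb l).2 ⟨hm, ⟨h1.1, h1.2.1, h1.2.2, h2⟩, h3⟩))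
  · intro l hm h1 h2 h3
    exact Ideal.mul_le_right.trans (hpl _ l ((mc l).2 ⟨hm, ⟨h1.1, h1.2.1, h1.2.2, h2⟩, h3⟩))

end H1.LC
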