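import Mathlib
import Pool.Agent.H1.LC.Hen

set_option autoImplicit false

/-!
# W1#, LOC: primitive pairs `(W, Y)` with `W ^ 2 + D Y ^ 2 ∈ l ^ k`: two classes

PROOF of `prs_pr` (`2, D ∉ l`, so `od l D = od l 2 = 0`, `od_zero`). `k = 0`: trivial. Let `k ≥ 1`.
(1) There is `x` with `x ^ 2 + D ∈ l`. `hensel`: `δ ^ 2 + D ∈ l ^ k`, `2 od l δ = 0`, so `δ ∉ l` (`mem_iff`).
`cl W Y = 0` if `W + δ Y ∈ l ^ k`, otherwise `1`. Let `(W, Y)` be primitive with `W ^ 2 + D Y ^ 2 ∈ l ^ k`. The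
product `(W + δ Y) (W - δ Y) = (W ^ 2 + D Y ^ 2) - (δ ^ 2 + D) Y ^ 2` is in `l ^ k`; not both factors are in
`l` (sum `2 W`, difference `2 δ Y`). If `W - δ Y ∉ l` then `W + δ Y ∈ l ^ k` (`FP.cancel`); so `cl = 1` implies
`W - δ Y ∈ l`, `W + δ Y ∉ l`, `W - δ Y ∈ l ^ k`. Two pairs of class `0`:
`W Y' - Y W' = (W + δ Y) Y' - Y (W' + δ Y')`; of class `1`: the same with `-δ`.
(2) No such `x`: then there is no primitive pair: `W ^ 2 + D Y ^ 2 ∈ l`. If `Y ∈ l`, then `W ^ 2 ∈ l`,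
`W ∈ l`. If `Y ∉ l`: `y Y - 1 ∈ l` for some `y` (`l.isMaximal`, `Ideal.exists_inv`-like), and
`(y W) ^ 2 + D = y ^ 2 (W ^ 2 + D Y ^ 2) - D (y Y - 1) (y Y + 1) ∈ l`, contradiction. `cl = 0`.
-/

namespace H1.LC

open IsDedekindDomain
open Pool.Agent.H28.FP (od mem_iff mem_od)

variable {O : Type} [CommRing O] [IsDedekindDomain O]

/-- primitive pairs: two classes -/
theorem prs_pr (l : HeightOneSpectrum O) {D : O} (h2 : (2 : O) ∉ l.asIdeal) (hD : D ∉ l.asIdeal)
    (k : ℕ) :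
    ∃ cl : O → O → ℕ, (∀ W Y, cl W Y < 2) ∧ ∀ W Y W' Y' : O,
      ¬ (W ∈ l.asIdeal ∧ Y ∈ l.asIdeal) → ¬ (W' ∈ l.asIdeal ∧ Y' ∈ l.asIdeal) →
      W ^ 2 + D * Y ^ 2 ∈ l.asIdeal ^ k → W' ^ 2 + D * Y' ^ 2 ∈ l.asIdeal ^ k →
      cl W Y = cl W' Y' → W * Y' - Y * W' ∈ l.asIdeal ^ k := by
  classical
  have hp := l.isPrime
  rcases Nat.eq_zero_or_pos k with rfl | hk
  · refine ⟨fun _ _ => 0, fun _ _ => by norm_num, fun W Y W' Y' _ _ _ _ _ => ?_⟩
    rw [pow_zero, Ideal.one_eq_top]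
    exact Submodule.mem_top
  have hkl : l.asIdeal ^ k ≤ l.asIdeal := Ideal.pow_le_self hk.ne'
  by_cases hx : ∃ x : O, x ^ 2 + D ∈ l.asIdeal
  · obtain ⟨x, hx⟩ := hx
    have h20 : (2 : O) ≠ 0 := fun h => h2 (by rw [h]; exact Ideal.zero_mem _)
    have hD0 : D ≠ 0 := fun h => hD (by rw [h]; exact Ideal.zero_mem _)
    obtain ⟨δ, h4, h5, h6⟩ := hensel l (x := x) h20 hD0
      (by rw [od_zero l hD, od_zero l h2]; simpa using hx) k
    rw [od_zero l hD] at h6
    have h7 : δ ∉ l.asIdeal := by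
      intro h
      have h8 := (mem_iff l h5 1).1 (by rwa [pow_one])
      omega
    have key : ∀ W Y : O, ¬ (W ∈ l.asIdeal ∧ Y ∈ l.asIdeal) → W ^ 2 + D * Y ^ 2 ∈ l.asIdeal ^ k →
        W + δ * Y ∈ l.asIdeal ^ k ∨ W - δ * Y ∈ l.asIdeal ^ k := by
      intro W Y hn h
      have h8 : (W - δ * Y) * (W + δ * Y) ∈ l.asIdeal ^ k := by
        have e : (W - δ * Y) * (W + δ * Y) = (W ^ 2 + D * Y ^ 2) - (δ ^ 2 + D) * Y ^ 2 := by ring
        rw [e]
        exact Ideal.sub_mem _ h (Ideal.mul_mem_right _ _ h4)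
      by_cases h9 : W - δ * Y ∈ l.asIdeal
      · right
        have h10 : W + δ * Y ∉ l.asIdeal := by
          intro h10
          apply hn
          have e1 : 2 * W ∈ l.asIdeal := by
            have e : 2 * W = (W - δ * Y) + (W + δ * Y) := by ring
            rw [e]
            exact Ideal.add_mem _ h9 h10
          have e2 : 2 * (δ * Y) ∈ l.asIdeal := by
            have e : 2 * (δ * Y) = (W + δ * Y) - (W - δ * Y) := by ring
            rw [e]
            exact Ideal.sub_mem _ h10 h9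
          exact ⟨(hp.mem_or_mem e1).resolve_left h2,
            (hp.mem_or_mem ((hp.mem_or_mem e2).resolve_left h2)).resolve_left h7⟩
        rw [mul_comm] at h8
        exact Pool.Agent.H28.FP.cancel l h10 h8
      · left
        exact Pool.Agent.H28.FP.cancel l h9 h8
    refine ⟨fun W Y => if W + δ * Y ∈ l.asIdeal ^ k then 0 else 1, fun W Y => by
      dsimp only; split_ifs <;> norm_num, ?_⟩
    intro W Y W' Y' hn hn' h h' hcl
    dsimp only at hcl
    by_cases h8 : W + δ * Y ∈ l.asIdeal ^ k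
    · have h9 : W' + δ * Y' ∈ l.asIdeal ^ k := by
        by_contra h9
        rw [if_pos h8, if_neg h9] at hcl
        omega
      have e : W * Y' - Y * W' = (W + δ * Y) * Y' - Y * (W' + δ * Y') := by ring
      rw [e]
      exact Ideal.sub_mem _ (Ideal.mul_mem_right _ _ h8) (Ideal.mul_mem_left _ _ h9)
    · have h9 : W' + δ * Y' ∉ l.asIdeal ^ k := by
        intro h9
        rw [if_neg h8, if_pos h9] at hcl
        omega
      have h10 := (key W Y hn h).resolve_left h8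
      have h11 := (key W' Y' hn' h').resolve_left h9
      have e : W * Y' - Y * W' = (W - δ * Y) * Y' - Y * (W' - δ * Y') := by ring
      rw [e]
      exact Ideal.sub_mem _ (Ideal.mul_mem_right _ _ h10) (Ideal.mul_mem_left _ _ h11)
  · refine ⟨fun _ _ => 0, fun _ _ => by norm_num, ?_⟩
    intro W Y W' Y' hn _ h _ _
    exfalso
    have h4 := hkl h
    by_cases hY : Y ∈ l.asIdeal
    · apply hn
      refine ⟨?_, hY⟩
      have e : W ^ 2 ∈ l.asIdeal := by
        have e' : W ^ 2 = (W ^ 2 + D * Y ^ 2) - D * Y * Y := by ring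
        rw [e']
        exact Ideal.sub_mem _ h4 (Ideal.mul_mem_left _ _ hY)
      exact hp.mem_of_pow_mem _ e
    · obtain ⟨y, hy⟩ : ∃ y, y * Y - 1 ∈ l.asIdeal := by
        have h5 := l.isMaximal.exists_inv hY
        obtain ⟨y, i, hi, h6⟩ := h5
        refine ⟨y, ?_⟩
        have e : y * Y - 1 = -i := by rw [← h6]; ring
        rw [e]
        exact neg_mem hi
      apply hx
      refine ⟨y * W, ?_⟩
      have e : (y * W) ^ 2 + D = y ^ 2 * (W ^ 2 + D * Y ^ 2) - D * (y * Y + 1) * (y * Y - 1) := by ring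
      rw [e]
      exact Ideal.sub_mem _ (Ideal.mul_mem_left _ _ h4) (Ideal.mul_mem_left _ _ hy)

end H1.LC
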