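import Mathlib
import Pool.Agent.H1.LC.Ppr
import Pool.Agent.H1.LC.Tra

set_option autoImplicit false

/-!
# W1#, LOC: primitive rows: two classes

PROOF of `side_pr`. `od l 2 = od l D1 = 0` (`od_zero`). `e` from `exists_e`: `Ab(e, e) ≠ 0` and
`od l (Ab(e, e)) = 0`, so `Ab(e, e) ∉ l` (`mem_iff` with `n = 1`). `W`, `Y` as in `Tra.lean`; `cl π` = the `cl` of
`prs_pr` (for `D = D1`) at `(W, Y)`. If `W, Y ∈ l` then by `ab_one`, `ab_two` `Ab(e, e) η1, Ab(e, e) η2 ∈ l`,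
so `η1, η2 ∈ l` (`l` prime): so primitive rows give primitive pairs. `W ^ 2 + D1 Y ^ 2 ∈ l ^ k` as in `Tra`.
`prs_pr` gives `Ab(e, e) D1 br ∈ l ^ k`, and `FP.cancel` twice.
-/

namespace H1.LC

open H88.A4 IsDedekindDomain
open Pool.Agent.H28.FP (od mem_iff mem_od)

variable {O : Type} [CommRing O] [IsDedekindDomain O]

private theorem pair_mem (l : HeightOneSpectrum O) {β : Blk O} {k : ℕ} (hE : β.E ∈ l.asIdeal ^ k) (e1 e2 : O)
    {π : Row O} {r r' u v : O} (h : Sol β π r r' u v) :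
    β.Ab e1 e2 (β.eb1 π) (β.eb2 π) ^ 2 + β.D1 * (e1 * β.eb2 π - e2 * β.eb1 π) ^ 2 ∈ l.asIdeal ^ k := by
  rw [ab_mul, ← Pool.Agent.H28.A4.E_mul h]
  exact Ideal.mul_mem_left _ _ (Ideal.mul_mem_right _ _ hE)

private theorem pair_sub (β : Blk O) (e1 e2 : O) (π π' : Row O) :
    β.Ab e1 e2 (β.eb1 π) (β.eb2 π) * (e1 * β.eb2 π' - e2 * β.eb1 π') -
      (e1 * β.eb2 π - e2 * β.eb1 π) * β.Ab e1 e2 (β.eb1 π') (β.eb2 π') =
      β.Ab e1 e2 e1 e2 * β.D1 * β.br π π' := by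
  rw [ab_sub, Pool.Agent.H28.A4.eta_wedge, mul_assoc]

/-- the `b`-side for primitive `η_b`: two classes, no loss -/
theorem side_pr (l : HeightOneSpectrum O) (β : Blk O) (h2 : (2 : O) ∉ l.asIdeal)
    (hD : β.D1 ∉ l.asIdeal) (k : ℕ) (hE : β.E ∈ l.asIdeal ^ k) :
    ∃ cl : Row O → ℕ, (∀ π, cl π < 2) ∧ ∀ (π π' : Row O) (r r' u v ρ ρ' u' v' : O),
      Sol β π r r' u v → Sol β π' ρ ρ' u' v' →
      ¬ (β.eb1 π ∈ l.asIdeal ∧ β.eb2 π ∈ l.asIdeal) →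
      ¬ (β.eb1 π' ∈ l.asIdeal ∧ β.eb2 π' ∈ l.asIdeal) → cl π = cl π' →
      β.br π π' ∈ l.asIdeal ^ k := by
  have hpr := l.isPrime
  have h20 : (2 : O) ≠ 0 := fun h0 => h2 (by rw [h0]; exact Ideal.zero_mem _)
  have hD0 : β.D1 ≠ 0 := fun h0 => hD (by rw [h0]; exact Ideal.zero_mem _)
  have o2 := od_zero l h2
  have oD := od_zero l hD
  obtain ⟨e1, e2, hA0, hA⟩ := exists_e l β h20 hD0
  have hAl : β.Ab e1 e2 e1 e2 ∉ l.asIdeal := by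
    intro hmem
    rw [← pow_one l.asIdeal, mem_iff l hA0] at hmem
    omega
  have hAD : β.Ab e1 e2 e1 e2 * β.D1 ∉ l.asIdeal := by
    intro hmem
    rcases hpr.mem_or_mem hmem with h3 | h3
    · exact hAl h3
    · exact hD h3
  obtain ⟨cl, hcl, hcl2⟩ := prs_pr l h2 hD k
  have hprim : ∀ π : Row O, ¬ (β.eb1 π ∈ l.asIdeal ∧ β.eb2 π ∈ l.asIdeal) →
      ¬ (β.Ab e1 e2 (β.eb1 π) (β.eb2 π) ∈ l.asIdeal ∧ e1 * β.eb2 π - e2 * β.eb1 π ∈ l.asIdeal) := by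
    rintro π hπ ⟨hW, hY⟩
    apply hπ
    constructor
    · have h3 : β.Ab e1 e2 e1 e2 * β.eb1 π ∈ l.asIdeal := by
        rw [ab_one]
        exact Ideal.add_mem _ (Ideal.mul_mem_right _ _ hW) (Ideal.mul_mem_right _ _ hY)
      exact (hpr.mem_or_mem h3).resolve_left hAl
    · have h3 : β.Ab e1 e2 e1 e2 * β.eb2 π ∈ l.asIdeal := by
        rw [ab_two]
        exact Ideal.add_mem _ (Ideal.mul_mem_right _ _ hW) (Ideal.mul_mem_right _ _ hY)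
      exact (hpr.mem_or_mem h3).resolve_left hAl
  refine ⟨fun π => cl (β.Ab e1 e2 (β.eb1 π) (β.eb2 π)) (e1 * β.eb2 π - e2 * β.eb1 π), fun π => hcl _ _, ?_⟩
  intro π π' r r' u v ρ ρ' u' v' h h' hp hp' hc
  have k1 := hcl2 _ _ _ _ (hprim π hp) (hprim π' hp') (pair_mem l hE e1 e2 h) (pair_mem l hE e1 e2 h') hc
  rw [pair_sub] at k1
  exact Pool.Agent.H28.FP.cancel l hAD k1

end H1.LC
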