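import Mathlib
import Pool.Agent.H1.LC.Bad
import Pool.Agent.H1.LC.Gd3
import Pool.Agent.H1.LC.Ggs
import Pool.Agent.H1.LC.Bri
import Pool.Agent.H1.LC.Tpr
import Pool.Agent.H88.WS.Iface

set_option autoImplicit false

/-!
# W1#, LOC: `Loc0Stmt` (`c1 = c2 = 0`; assembly)

Here `D3 = 0`, `D2 = b1 c3`, `E = -(b1 c3) ^ 2`, `(e4)`: `v = -c3 q1 ^ 2`, `eb1 = -D1 q1`.

PROOF of `loc_zero` (the local class function). `k = od l E ≥ 1`.
(1) `g ≤ l`: `cl = 0`. `hg1`: `6 M ∉ l`, `D1 ∈ l`; `D3 = 0`; `good3`: `br ∈ l`, `k ≤ 2`; `x ∈ g ≤ l`.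
(2) `6 M ∈ l`: `bad`, `k + 1 ≤ (k + 1) ^ 48`. (3) otherwise `6 M ∉ l`, not `g ≤ l`.
(a) `D1 ∈ l`: no solution: `good3` gives (all `b_i ∈ l`) or (all `c_i ∈ l`), `notboth`, `hg2`, `hg3`
(`D3 = 0 ∈ l`): `g ≤ l`, contradiction; `cl = 0` (`< k + 1` and `< 2`).
(b) `D1 ∉ l`, `c3 ∈ l`: `good1`, `k + 1` classes.
(c) `D1 ∉ l`, `c3 ∉ l`: `Tpr.side_pr`, two classes: for a solution `q1 ∉ l`, because `q1 ∈ l` would give
`v ∈ l ^ 2`, `od l v ≥ 2`, but `od l v ≤ 2 od l M + 1 = 1` (`M ∉ l`). So `eb1 = -D1 q1 ∉ l`.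

PROOF of `loc0Stmt`: as `loc2Stmt` (see `LC2.lean`), with `lf0`, `Fc0`.
-/

open scoped NumberField

namespace H1.LC

open H88.A4 IsDedekindDomain Pool.Agent.H67.WA
open Pool.Agent.H28.FP (od mem_iff mem_od)

variable {K : Type} [Field K] [NumberField K]

theorem loc_zero (l : HeightOneSpectrum (𝓞 K)) {M : ℕ} (hM : M ≠ 0) (β : Blk (𝓞 K))
    (hc1 : β.c1 = 0) (hc2 : β.c2 = 0) (hE : β.E ≠ 0)
    (hEl : β.E ∈ l.asIdeal) (g : Ideal (𝓞 K))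
    (hg1 : g ≤ l.asIdeal → ((6 * M : ℕ) : 𝓞 K) ∉ l.asIdeal ∧ β.D1 ∈ l.asIdeal ∧ β.D3 ∈ l.asIdeal)
    (hg2 : ((6 * M : ℕ) : 𝓞 K) ∉ l.asIdeal →
      (β.b1 ∈ l.asIdeal ∧ β.b2 ∈ l.asIdeal ∧ β.b3 ∈ l.asIdeal) → β.D3 ∈ l.asIdeal →
      ¬ (β.c1 ∈ l.asIdeal ∧ β.c2 ∈ l.asIdeal ∧ β.c3 ∈ l.asIdeal) → g ≤ l.asIdeal)
    (hg3 : ((6 * M : ℕ) : 𝓞 K) ∉ l.asIdeal →
      (β.c1 ∈ l.asIdeal ∧ β.c2 ∈ l.asIdeal ∧ β.c3 ∈ l.asIdeal) → β.D1 ∈ l.asIdeal →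
      ¬ (β.b1 ∈ l.asIdeal ∧ β.b2 ∈ l.asIdeal ∧ β.b3 ∈ l.asIdeal) → g ≤ l.asIdeal) :
    ∃ cl : Row (𝓞 K) → ℕ,
      (∀ π, cl π < H88.WS.lf0 (6 * M) β.c3 g l.asIdeal (od l β.E)) ∧
      ∀ π π' : Row (𝓞 K), LS l (M : 𝓞 K) β π → LS l (M : 𝓞 K) β π' → cl π = cl π' →
        ∀ x ∈ g, ((((6 * M) ^ 48 : ℕ)) : 𝓞 K) * x * β.br π π' ∈ l.asIdeal ^ od l β.E := by
  have hc : ((6 * M : ℕ) : 𝓞 K) = 6 * (M : 𝓞 K) := by push_cast; ring
  have hc' : (((6 * M) ^ 48 : ℕ) : 𝓞 K) = (6 * (M : 𝓞 K)) ^ 48 := by push_cast; ring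
  have hMO : (M : 𝓞 K) ≠ 0 := by exact_mod_cast hM
  have hD3 : β.D3 = 0 := by
    rw [Blk.D3, hc1, hc2]
    ring
  have hD3l : β.D3 ∈ l.asIdeal := by
    rw [hD3]
    exact Ideal.zero_mem _
  have hmo : β.E ∈ l.asIdeal ^ od l β.E := mem_od l β.E hE
  by_cases hg : g ≤ l.asIdeal
  · obtain ⟨h6, hD1, _⟩ := hg1 hg
    rw [hc] at h6
    refine ⟨fun _ => 0, fun π => ?_, fun π π' h _ _ x hx => ?_⟩
    · unfold H88.WS.lf0
      rw [if_pos hg]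
      exact zero_lt_one
    · obtain ⟨_, hbr, hk⟩ := good3 l h6 β hE hEl hD1 hD3l h
      have h1 : x * β.br π π' ∈ l.asIdeal ^ od l β.E := by
        refine Pool.Agent.H28.A4.mul_mem_le l (a := 1) (b := 1) ?_ ?_ hk
        · rw [pow_one]
          exact hg hx
        · rw [pow_one]
          exact hbr π'
      rw [mul_assoc]
      exact Ideal.mul_mem_left _ _ h1
  by_cases h6 : ((6 * M : ℕ) : 𝓞 K) ∈ l.asIdeal
  · obtain ⟨cl, h1, h2⟩ := bad l hMO (by norm_num) (by norm_num) (by rw [← hc]; exact h6) β hE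
    refine ⟨cl, fun π => ?_, fun π π' h h' he x _ => ?_⟩
    · unfold H88.WS.lf0
      rw [if_neg hg, if_pos h6]
      exact (h1 π).trans_le (Nat.le_self_pow (by norm_num) _)
    · have h3 := h2 π π' h h' he
      rw [hc']
      have h4 : (6 * (M : 𝓞 K)) ^ 48 * x * β.br π π' = x * ((6 * (M : 𝓞 K)) ^ 48 * β.br π π') := by
        ring
      rw [h4]
      exact Ideal.mul_mem_left _ _ h3
  have h6' : 6 * (M : 𝓞 K) ∉ l.asIdeal := by rw [← hc]; exact h6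
  have hfin : ∀ (π π' : Row (𝓞 K)) (x : 𝓞 K), β.br π π' ∈ l.asIdeal ^ od l β.E →
      ((((6 * M) ^ 48 : ℕ)) : 𝓞 K) * x * β.br π π' ∈ l.asIdeal ^ od l β.E := fun π π' x h =>
    Ideal.mul_mem_left _ _ h
  by_cases hD1 : β.D1 ∈ l.asIdeal
  · have hno : ∀ π : Row (𝓞 K), ¬ LS l (M : 𝓞 K) β π := by
      intro π h
      obtain ⟨h1, _, _⟩ := good3 l h6' β hE hEl hD1 hD3l h
      rcases h1 with hb | hcc
      · exact hg (hg2 h6 hb hD3l fun hcc => notboth l h6' β h hb hcc)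
      · exact hg (hg3 h6 hcc hD1 fun hb => notboth l h6' β h hb hcc)
    refine ⟨fun _ => 0, fun π => ?_, fun π π' h => absurd h (hno π)⟩
    unfold H88.WS.lf0
    rw [if_neg hg, if_neg h6]
    split_ifs
    · exact Nat.succ_pos _
    · exact two_pos
  by_cases hc3 : β.c3 ∈ l.asIdeal
  · obtain ⟨cl, h1, h2⟩ := good1 l h6' β hD1 (od l β.E) hmo
    refine ⟨cl, fun π => ?_, fun π π' h h' he x _ => hfin π π' x (h2 π π' h h' he)⟩
    unfold H88.WS.lf0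
    rw [if_neg hg, if_neg h6, if_pos hc3]
    exact h1 π
  · have h2l : (2 : 𝓞 K) ∉ l.asIdeal := by
      intro h
      refine h6' ?_
      have h1 : 6 * (M : 𝓞 K) = 3 * M * 2 := by ring
      rw [h1]
      exact Ideal.mul_mem_left _ _ h
    have hMl : (M : 𝓞 K) ∉ l.asIdeal := fun h => h6' (Ideal.mul_mem_left _ _ h)
    obtain ⟨cl, h1, h2⟩ := side_pr l β h2l hD1 (od l β.E) hmo
    have heb : ∀ (π : Row (𝓞 K)) (r r' u v : 𝓞 K), LAdm l (M : 𝓞 K) u v → Sol β π r r' u v →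
        ¬ (β.eb1 π ∈ l.asIdeal ∧ β.eb2 π ∈ l.asIdeal) := by
      rintro π r r' u v ha hs ⟨h3, _⟩
      have h4 : β.eb1 π = -(β.D1 * π.q1) := by
        rw [Blk.eb1, hc1, hc2]
        ring
      rw [h4, Ideal.neg_mem_iff] at h3
      have h5 : π.q1 ∈ l.asIdeal := by
        rcases l.isPrime.mem_or_mem h3 with h | h
        · exact absurd h hD1
        · exact h
      have h7 := hs.e4
      rw [hD3, Blk.Ac, hc1, hc2] at h7
      have h8 : v = -β.c3 * π.q1 ^ 2 := by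
        rw [← h7]
        ring
      have h9 : v ∈ l.asIdeal ^ 2 := by
        rw [h8]
        exact Ideal.mul_mem_left _ _ (Ideal.pow_mem_pow h5 2)
      have h10 := (mem_iff l ha.v0 2).1 h9
      have h11 := ha.ov
      rw [od_zero l hMl] at h11
      omega
    refine ⟨cl, fun π => ?_, ?_⟩
    · unfold H88.WS.lf0
      rw [if_neg hg, if_neg h6, if_neg hc3]
      exact h1 π
    · rintro π π' ⟨r, r', u, v, ha, hs⟩ ⟨ρ, ρ', u', v', ha', hs'⟩ he x _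
      exact hfin π π' x (h2 π π' r r' u v ρ ρ' u' v' hs hs' (heb π r r' u v ha hs)
        (heb π' ρ ρ' u' v' ha' hs') he)

theorem loc0Stmt (K : Type) [Field K] [NumberField K] : H88.WS.Loc0Stmt K := by
  classical
  intro M hM
  refine ⟨6 * M, (6 * M) ^ 48, by positivity, by positivity, Dvd.intro _ rfl,
    fun β hc1 hc2 hE hD1 => ?_⟩
  obtain ⟨gb, gc, s1, s2, cop, _, hb, hc, g1, g2, g3⟩ := exists_gg2 β hE ((6 * M : ℕ) : 𝓞 K)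
  refine ⟨gb, gc, s1, s2, cop, hb, ⟨hc.2.2.1, hc.2.2.2⟩, ?_⟩
  obtain ⟨cl, hcl, hcl'⟩ := comb (H88.WS.pf (Ideal.span {β.E}))
    (fun π : Row (𝓞 K) => ∃ (C s t : ℝ) (u v r r' : 𝓞 K), Adm M C s t u v ∧ Sol β π r r' u v)
    (fun P π π' => ∀ x ∈ gb * gc, ((((6 * M) ^ 48 : ℕ)) : 𝓞 K) * x * β.br π π' ∈
      P ^ H88.WS.od P (Ideal.span {β.E}))
    (fun P => H88.WS.lf0 (6 * M) β.c3 (gb * gc) P (H88.WS.od P (Ideal.span {β.E}))) (by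
      intro P hP
      obtain ⟨l, rfl, hlE⟩ := (pf_iff hE P).1 hP
      obtain ⟨cl, h1, h2⟩ := loc_zero l hM β hc1 hc2 hE hlE (gb * gc) (g1 l) (g2 l) (g3 l)
      have hls : ∀ π : Row (𝓞 K), (∃ (C s t : ℝ) (u v r r' : 𝓞 K), Adm M C s t u v ∧
          Sol β π r r' u v) → LS l (M : 𝓞 K) β π := by
        rintro π ⟨C, s, t, u, v, r, r', ha, hs⟩
        exact ⟨r, r', u, v, ladm_of hM ha l, hs⟩
      refine ⟨cl, fun π => ?_, fun π π' h h' he x hx => ?_⟩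
      · rw [od_eq l hE]
        exact h1 π
      · rw [od_eq l hE]
        exact h2 π π' (hls π h) (hls π' h') he x hx)
  refine ⟨cl, hcl, fun C s t u v u' v' r r' ρ ρ' π π' ha hs ha' hs' he x hx => ?_⟩
  apply Pool.Agent.H28.FP.dvd_of_local hE
  intro l
  by_cases hl : β.E ∈ l.asIdeal
  · have h1 := hcl' π π' ⟨C, s, t, u, v, r, r', ha, hs⟩ ⟨C, s, t, u', v', ρ, ρ', ha', hs'⟩ he
      l.asIdeal ((pf_iff hE _).2 ⟨l, rfl, hl⟩) x hx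
    rw [od_eq l hE] at h1
    exact h1
  · rw [od_zero l hl, pow_zero, Ideal.one_eq_top]
    trivial

end H1.LC
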