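import Mathlib
import Pool.Agent.H1.LC.Bad
import Pool.Agent.H1.LC.Gd3
import Pool.Agent.H1.LC.Ggs
import Pool.Agent.H1.LC.Bri
import Pool.Agent.H88.WS.Iface

set_option autoImplicit false

/-!
# W1#, LOC: `Loc2Stmt` (assembly)

PROOF of `loc_all` (the local class function, general form). `k = od l E ≥ 1`.
(1) `g ≤ l`: `cl = 0 < 1`. `hg1`: `6 M ∉ l`, `D1, D3 ∈ l`; `good3`: `br ∈ l`, `k ≤ 2`; `x ∈ g ≤ l`; so
`x br ∈ l ^ 2 ⊆ l ^ k`. (2) `6 M ∈ l`: `bad`, `k + 1 ≤ (k + 1) ^ 48`. (3) otherwise, `6 M ∉ l`, not `g ≤ l`: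
(a) `D3 ∉ l`, `Inr`: `good1n`, `cl = 0`. (b) `D3 ∉ l`, not `Inr`: `good1c`. (c) `D3 ∈ l`, `D1 ∉ l`: `good1`
(`D3 ∈ l`, so not `Inr`). (d) `D1, D3 ∈ l`: there is no solution: `good3` gives (all `b_i ∈ l`) or
(all `c_i ∈ l`), `notboth` says not both, so `hg2` or `hg3` gives `g ≤ l`, contradiction; `cl = 0 < k + 1`.
(in (3) multiply the statement `br ∈ l ^ k` by `m2 x`: `Ideal.mul_mem_left`.)

PROOF of `loc2Stmt`. `m = 6 M`, `m2 = (6 M) ^ 48`. `gb, gc` from `exists_gg2` with `m`. `comb` with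
`S = pf (span {E})`, `P π = ∃ C s t u v r r', Adm .. ∧ Sol ..`, `Q P π π' = ∀ x ∈ gb gc, m2 x br ∈ P ^ (od P (E))`,
`N P = lf ..`; the local class functions from `loc_all` (`pf_iff`, `od_eq`, `ladm_of`; `k ≥ 1` from
`E ∈ l`). At the end `FP.dvd_of_local`: for `E ∉ l` the exponent is `0` (`od_zero`).
-/

open scoped NumberField

namespace H1.LC

open H88.A4 IsDedekindDomain Pool.Agent.H67.WA
open Pool.Agent.H28.FP (od mem_iff mem_od)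

variable {K : Type} [Field K] [NumberField K]

theorem loc_all (l : HeightOneSpectrum (𝓞 K)) {M : ℕ} (hM : M ≠ 0) (β : Blk (𝓞 K)) (hE : β.E ≠ 0)
    (hEl : β.E ∈ l.asIdeal) (g : Ideal (𝓞 K))
    (hg1 : g ≤ l.asIdeal → ((6 * M : ℕ) : 𝓞 K) ∉ l.asIdeal ∧ β.D1 ∈ l.asIdeal ∧ β.D3 ∈ l.asIdeal)
    (hg2 : ((6 * M : ℕ) : 𝓞 K) ∉ l.asIdeal →
      (β.b1 ∈ l.asIdeal ∧ β.b2 ∈ l.asIdeal ∧ β.b3 ∈ l.asIdeal) → β.D3 ∈ l.asIdeal →
      ¬ (β.c1 ∈ l.asIdeal ∧ β.c2 ∈ l.asIdeal ∧ β.c3 ∈ l.asIdeal) → g ≤ l.asIdeal)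
    (hg3 : ((6 * M : ℕ) : 𝓞 K) ∉ l.asIdeal →
      (β.c1 ∈ l.asIdeal ∧ β.c2 ∈ l.asIdeal ∧ β.c3 ∈ l.asIdeal) → β.D1 ∈ l.asIdeal →
      ¬ (β.b1 ∈ l.asIdeal ∧ β.b2 ∈ l.asIdeal ∧ β.b3 ∈ l.asIdeal) → g ≤ l.asIdeal) :
    ∃ cl : Row (𝓞 K) → ℕ,
      (∀ π, cl π < H88.WS.lf (6 * M) β.D3 g l.asIdeal (od l β.E)) ∧
      ∀ π π' : Row (𝓞 K), LS l (M : 𝓞 K) β π → LS l (M : 𝓞 K) β π' → cl π = cl π' →
        ∀ x ∈ g, ((((6 * M) ^ 48 : ℕ)) : 𝓞 K) * x * β.br π π' ∈ l.asIdeal ^ od l β.E := by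
  have hEk : β.E ∈ l.asIdeal ^ od l β.E := mem_od l β.E hE
  have hcast : ((6 * M : ℕ) : 𝓞 K) = 6 * (M : 𝓞 K) := by push_cast; rfl
  have hcast2 : ((((6 * M) ^ 48 : ℕ)) : 𝓞 K) = (6 * (M : 𝓞 K)) ^ 48 := by push_cast; rfl
  have hMO : (M : 𝓞 K) ≠ 0 := by exact_mod_cast hM
  by_cases hgl : g ≤ l.asIdeal
  · obtain ⟨h6, hD1, hD3⟩ := hg1 hgl
    rw [hcast] at h6
    refine ⟨fun _ => 0, fun π => ?_, fun π π' h _ _ x hx => ?_⟩
    · unfold H88.WS.lf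
      rw [if_pos hgl]
      exact Nat.one_pos
    · obtain ⟨_, hbr, hk⟩ := good3 l h6 β hE hEl hD1 hD3 h
      have h1 : ((((6 * M) ^ 48 : ℕ)) : 𝓞 K) * x ∈ l.asIdeal ^ 1 := by
        rw [pow_one]
        exact Ideal.mul_mem_left _ _ (hgl hx)
      have h2 : β.br π π' ∈ l.asIdeal ^ 1 := by
        rw [pow_one]
        exact hbr π'
      exact Pool.Agent.H28.A4.mul_mem_le l h1 h2 (by omega)
  by_cases h6 : ((6 * M : ℕ) : 𝓞 K) ∈ l.asIdeal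
  · have h6' := h6
    rw [hcast] at h6'
    obtain ⟨cl, hcl, hcl2⟩ := bad l hMO (by exact_mod_cast (two_ne_zero : (2 : ℕ) ≠ 0)) (by exact_mod_cast (three_ne_zero : (3 : ℕ) ≠ 0)) h6' β hE
    refine ⟨cl, fun π => ?_, fun π π' h h' hc x _ => ?_⟩
    · unfold H88.WS.lf
      rw [if_neg hgl, if_pos h6]
      exact (hcl π).trans_le (Nat.le_self_pow (by norm_num) _)
    · have h1 := hcl2 π π' h h' hc
      have e1 : ((((6 * M) ^ 48 : ℕ)) : 𝓞 K) * x * β.br π π' = x * ((6 * (M : 𝓞 K)) ^ 48 * β.br π π') := by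
        rw [hcast2]
        ring
      rw [e1]
      exact Ideal.mul_mem_left _ _ h1
  have h6' := h6
  rw [hcast] at h6'
  by_cases hD3 : β.D3 ∈ l.asIdeal
  · have hI : ¬ H88.WS.Inr (6 * M) β.D3 l.asIdeal := fun h => h.2.1 hD3
    by_cases hD1 : β.D1 ∈ l.asIdeal
    · refine ⟨fun _ => 0, fun π => ?_, fun π π' h _ _ x hx => ?_⟩
      · unfold H88.WS.lf
        rw [if_neg hgl, if_neg h6, if_neg hI]
        exact Nat.succ_pos _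
      · exfalso
        obtain ⟨hbc, _, _⟩ := good3 l h6' β hE hEl hD1 hD3 h
        rcases hbc with hb | hc
        · exact hgl (hg2 h6 hb hD3 fun hc => notboth l h6' β h hb hc)
        · exact hgl (hg3 h6 hc hD1 fun hb => notboth l h6' β h hb hc)
    · obtain ⟨cl, hcl, hcl2⟩ := good1 l h6' β hD1 (od l β.E) hEk
      refine ⟨cl, fun π => ?_, fun π π' h h' hc x _ => ?_⟩
      · unfold H88.WS.lf
        rw [if_neg hgl, if_neg h6, if_neg hI]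
        exact hcl π
      · exact Ideal.mul_mem_left _ _ (hcl2 π π' h h' hc)
  · by_cases hI : H88.WS.Inr (6 * M) β.D3 l.asIdeal
    · refine ⟨fun _ => 0, fun π => ?_, fun π π' h h' _ x hx => ?_⟩
      · unfold H88.WS.lf
        rw [if_neg hgl, if_neg h6, if_pos hI]
        exact Nat.one_pos
      · exact Ideal.mul_mem_left _ _ (good1n l h6' β hD3 hI.2.2 (od l β.E) hEk h h')
    · obtain ⟨cl, hcl, hcl2⟩ := good1c l h6' β hD3 (od l β.E) hEk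
      refine ⟨cl, fun π => ?_, fun π π' h h' hc x _ => ?_⟩
      · unfold H88.WS.lf
        rw [if_neg hgl, if_neg h6, if_neg hI]
        exact hcl π
      · exact Ideal.mul_mem_left _ _ (hcl2 π π' h h' hc)

theorem loc2Stmt (K : Type) [Field K] [NumberField K] : H88.WS.Loc2Stmt K := by
  intro M hM
  refine ⟨6 * M, (6 * M) ^ 48, by positivity, by positivity, Dvd.intro _ rfl, ?_⟩
  intro β hE hD1 hD3
  obtain ⟨gb, gc, sqb, sqc, cop, cop2, hb, hc, hg1, hg2, hg3⟩ := exists_gg2 β hE ((6 * M : ℕ) : 𝓞 K)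
  refine ⟨gb, gc, sqb, sqc, cop, cop2, hb, hc, ?_⟩
  obtain ⟨cl, hcl, hcl2⟩ := comb (H88.WS.pf (Ideal.span {β.E}))
    (fun π : Row (𝓞 K) => ∃ (C s t : ℝ) (u v r r' : 𝓞 K), Adm M C s t u v ∧ Sol β π r r' u v)
    (fun P π π' => ∀ x ∈ gb * gc, ((((6 * M) ^ 48 : ℕ)) : 𝓞 K) * x * β.br π π' ∈
      P ^ H88.WS.od P (Ideal.span {β.E}))
    (fun P => H88.WS.lf (6 * M) β.D3 (gb * gc) P (H88.WS.od P (Ideal.span {β.E})))
    (fun P hP => by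
      obtain ⟨l, rfl, hEl⟩ := (pf_iff hE P).1 hP
      obtain ⟨cl, h1, h2⟩ := loc_all l hM β hE hEl (gb * gc) (hg1 l) (hg2 l) (hg3 l)
      rw [od_eq l hE]
      refine ⟨cl, h1, ?_⟩
      rintro π π' ⟨C, s, t, u, v, r, r', ha, hs⟩ ⟨C', s', t', u', v', ρ, ρ', ha', hs'⟩ hc x hx
      exact h2 π π' ⟨r, r', u, v, ladm_of hM ha l, hs⟩ ⟨ρ, ρ', u', v', ladm_of hM ha' l, hs'⟩ hc x hx)
  refine ⟨cl, hcl, ?_⟩
  intro C s t u v u' v' r r' ρ ρ' π π' ha hs ha' hs' hcc x hx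
  refine Pool.Agent.H28.FP.dvd_of_local hE fun l => ?_
  by_cases hEl : β.E ∈ l.asIdeal
  · have h1 := hcl2 π π' ⟨C, s, t, u, v, r, r', ha, hs⟩ ⟨C, s, t, u', v', ρ, ρ', ha', hs'⟩ hcc l.asIdeal
      ((pf_iff hE _).2 ⟨l, rfl, hEl⟩) x hx
    rw [od_eq l hE] at h1
    exact h1
  · rw [od_zero l hEl, pow_zero, Ideal.one_eq_top]
    trivial

end H1.LC
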